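import Pool.Agent.U157.FP.Der
import Pool.Agent.R918.Tor

set_option autoImplicit false

/-!
# The period conjecture for motives of abelian type is decided by the endomorphisms of the adjoint motive

Let `A` be an abelian variety over `ℚ̄` and let `M` be any André motive over `ℚ̄` in the tensor
category generated by `h^1(A)` and the Tate motives (for all `A` these are the motives of abelian type:
products of curves, abelian varieties, K3 surfaces, hyperkähler varieties, Fermat hypersurfaces, ...).
Let `P` be the matrix of the periods of `M`. By theorems of Deligne and André the motivic Galois group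
of `M` is its Mumford-Tate group `MT(M)`.

The smallest torsor `Ω_M` is defined by the algebraic groups `G ⊆ GL(H_B(M))` over `ℚ` such that the
comparison isomorphism is a point of a torsor of `G` defined over `ℚ̄`: `P T ∈ G(ℂ)` for some matrix
`T` with algebraic entries. The equality `Ω_M = Ω_M^{dRB} = Ω_M^{And}` says that all these `G` contain
`MT(M)`. A class in the tensor space `M^{⊗ a} ⊗ (M^∨)^{⊗ b}` is a rational matrix `C` which gives a map
from `H_B(M)^{⊗ b}` to `H_B(M)^{⊗ a}`; it is a de Rham-Betti class if `P^{⊗ a} D = C P^{⊗ b}` for a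
matrix `D` with algebraic entries.

Let `𝔥` be the Lie algebra of the Hodge group of `M` (the image in `End(H_B(M))` of the Lie algebra
`𝔤` of the Hodge group of `A`): the Betti realization of the adjoint motive `ad(M) ⊆ M ⊗ M^∨`. The
*adjoint square* is `𝔥 ⊗ 𝔥 ⊆ End(M^{⊗ 2}) = M^{⊗ 2} ⊗ (M^∨)^{⊗ 2}`. As the adjoint motive is isomorphic
to its dual, the de Rham-Betti classes in the adjoint square are the de Rham-Betti endomorphisms of
the adjoint motive.

**Theorem.** Let the centre of `𝔤` act trivially on `M`, or let the centre of `𝔤` be rigid (a condition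
on the eigenvalues of the centre, see `RigidCentre`). For instance this is true if `A` has no factor of
type IV, so that the centre is zero. The following are equivalent:

* (a) all groups `G` as above contain `MT(M)`: `Ω_M = Ω_M^{dRB} = Ω_M^{And}`;
* (b) all de Rham-Betti classes in all tensor spaces of `M` are Hodge classes;
* (c) all de Rham-Betti classes in `M^{⊗ 2} ⊗ (M^∨)^{⊗ 2}` are Hodge classes;
* (d) all de Rham-Betti classes in the adjoint square are Hodge classes.

So the equality of the torsors, a statement about infinitely many tensor spaces and about arbitrary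
algebraic groups `G` (which are not assumed to be reductive or connected), is decided in degree four, on
one finite-dimensional space, by the endomorphisms of one motive. For example let `M = h^1(A)`, where `A` is
an abelian variety without factors of type IV. As `M^∨ = M(1)`, all de Rham-Betti classes on all powers of
`A` are Hodge classes if and only if those in `H^1(A)^{⊗ 4}(2)`, a summand of `H^4(A^4)(2)`, are. If the
centre of the Hodge group of `M` is finite, the conjecture for `M` says that the simple factors of the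
adjoint motive stay simple, without new endomorphisms and isomorphisms, in the category of de Rham-Betti
structures.

Nothing is assumed about periods: `AbVar` is the description of an abelian variety over `ℚ̄` by theta
functions (see `Pool/Agent/Y102/AVDefs.lean`, where it is explained why every abelian variety has it),
and the transcendence theorems which are used, the theorem of Schneider and Lang and the
transcendence of `π`, are proved in this repository.

## Motives

As in `CentreOfPeriodTorsors` (same problem): as `h^1(A)` is dual to `h^1(A)(1)`, the motive `M` is a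
direct factor of a sum of motives `h^1(A) ^ {⊗ r i} (w i)`. Its Betti realization is a space of families
of multilinear forms with rational values, in `r i` variables in `H_1(A, ℚ)`, with a basis `B`, stable
under the Lie algebra `𝔤` of the endomorphisms of `H_1(A, ℚ)` which annihilate all classes that are
Hodge classes and de Rham-Betti classes (`InLie`; by the theorem of Deligne this is the Lie algebra of
the Hodge group of `A`), and under the weights. The matrix `P` of the periods expresses a basis of the
de Rham realization in terms of the basis `(2 π i) ^ (w i) B` of the Betti realization (`IsMotive`).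

## Proof

Let `L` be the Lie algebra of `G` and let `𝔮` be the set of the `X` in `𝔤` whose action on `M` is in
`L` up to a multiple of the weight operator. By the theorem of Schneider and Lang `𝔮` acts semisimply
on `H_1(A, ℚ)` with the same commutant as `𝔤`. So the trace form of `H_1(A, ℚ)` is not degenerate on
`𝔮`, and the Casimir element of `𝔮` for this form is an element of the adjoint square. Its
derivatives vanish: it is a de Rham-Betti class. If it is invariant under an element `X` of `𝔤`, then
`X` normalizes the image of `𝔮`, and `X` is the sum of an element of `𝔮` and of an element of the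
centre (`Pool.Agent.N208.TS`). This gives the derived algebra; for the centre and the weights the
theorem on replicas is used (`Pool.Agent.N208.CT`). Conversely the stabilizer of a de Rham-Betti class is
an algebraic group over `ℚ`, and it has a torsor over `ℚ̄` which contains `P` and which has an
algebraic point by the Nullstellensatz.
-/

open Module Matrix Pool.Agent.Y102 Pool.Agent.W516.DR Pool.Agent.H204R3.GP

open scoped Kronecker

noncomputable section

namespace Pool.Agent.Results.MP_f11a48_ag.AdjointSquareDecides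

variable {g : ℕ} (A : AbVar g)

/-! ### The Lie algebra -/

/-- The multilinear forms in `2m` variables in the rational homology. -/
abbrev Form (m : ℕ) : Type := MultilinearMap ℚ (fun _ : Fin m × Fin 2 => A.H1) ℚ

/-- `φ` is a de Rham-Betti class in `H^1(A) ^ {⊗ 2m} (m)`. -/
def IsDRB {m : ℕ} (φ : Form A m) : Prop :=
  IsDeRhamBettiForm QBar A.dR (2 * Real.pi * Complex.I) m φ

/-- `φ` is a Hodge class in `H^1(A) ^ {⊗ 2m} (m)`. -/
def IsHodge {m : ℕ} (φ : Form A m) : Prop := IsHodgeTensor (A.per : A.H1 →+ (Fin g → ℂ)) φ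

/-- The endomorphism `X` annihilates the form `φ` (as a derivation). -/
def Annihilates {m : ℕ} (X : Module.End ℚ A.H1) (φ : Form A m) : Prop :=
  ∀ v, ∑ k, φ (Function.update v k (X (v k))) = 0

/-- `X` is in the Lie algebra `𝔤`: it annihilates all classes that are Hodge classes and
de Rham-Betti classes. -/
def InLie (X : Module.End ℚ A.H1) : Prop :=
  ∀ (m : ℕ) (φ : Form A m), IsHodge A φ → IsDRB A φ → Annihilates A X φ

/-! ### Motives -/

variable {s n : ℕ} (r : Fin s → ℕ) (w : Fin s → ℤ)

/-- The Betti realization of the sum of the motives `h^1(A) ^ {⊗ r i} (w i)`: families of multilinear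
forms in `r i` variables in the rational homology. -/
abbrev Tensors : Type := ∀ i : Fin s, MultilinearMap ℚ (fun _ : Fin (r i) => A.H1) ℚ

variable {A r}

/-- `M` is the matrix of the action of the endomorphism `X` of the rational homology of `A` (as a
derivation) on the space of tensors with the basis `B`. -/
def IsLieMatrix (B : Fin n → Tensors A r) (X : Module.End ℚ A.H1)
    (M : Matrix (Fin n) (Fin n) ℚ) : Prop :=
  ∀ a i v, ∑ k, B a i (Function.update v k (X (v k))) = ∑ b, M b a * B b i v

/-- The subspace with the basis `B` is the Betti realization of a direct factor `M` of the sum of the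
motives `h^1(A) ^ {⊗ r i} (w i)`, and `P` is the matrix of the periods of `M` for the basis `B` and for
some basis of the de Rham realization of `M` over `ℚ̄`. -/
structure IsMotive (B : Fin n → Tensors A r) (P : Matrix (Fin n) (Fin n) ℂ) : Prop where
  /-- `B` is a basis of a subspace -/
  basis : LinearIndependent ℚ B
  /-- the subspace is stable under `𝔤` -/
  lie : ∀ X, InLie A X → ∃ M : Matrix (Fin n) (Fin n) ℚ, IsLieMatrix B X M
  /-- the subspace is stable under the weights -/
  weight : ∃ M : Matrix (Fin n) (Fin n) ℚ, ∀ a i v,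
    ((r i : ℚ) - 2 * w i) * B a i v = ∑ b, M b a * B b i v
  /-- the de Rham realization has a basis of elements with algebraic coefficients in terms of the
  tensor products of the elements of the basis of `H^1_dR(A / ℚ̄)` -/
  deRham : ∃ c : Fin n → ∀ i : Fin s, (Fin (r i) → Fin g ⊕ Fin g) → ℂ,
    (∀ a i J, IsAlgebraic ℚ (c a i J)) ∧ ∀ a i (v : Fin (r i) → A.H1),
      ∑ J, c a i J * ∏ k, A.dR (J k) (v k) =
        (2 * Real.pi * Complex.I) ^ (w i) * ∑ b, P b a * (B b i v : ℂ)
  /-- the matrix of the periods is invertible -/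
  det : P.det ≠ 0

/-! ### The centre -/

variable (A) in
/-- The algebra of the endomorphisms of `H_1(A, ℂ)`, as matrices for the basis of the lattice. -/
def toC (X : Module.End ℚ A.H1) : Matrix (Fin (2 * g)) (Fin (2 * g)) ℂ :=
  Matrix.of fun i j => (X (Pi.single j 1) i : ℂ)

variable (A) in
/-- `X` is an element of the centre of `𝔤`. -/
def InCentre (X : Module.End ℚ A.H1) : Prop := InLie A X ∧ ∀ Y, InLie A Y → Y * X = X * Y

variable (A) in
/-- The endomorphisms which commute with `X` and with the derived algebra of `𝔤` commute with the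
centre of `𝔤`. -/
def Generates (X : Module.End ℚ A.H1) : Prop :=
  ∀ T : Module.End ℚ A.H1,
    (∀ Y, InLie A Y → ∀ Z, InLie A Z → T * (Y * Z - Z * Y) = (Y * Z - Z * Y) * T) →
    T * X = X * T → ∀ Z, InCentre A Z → T * Z = Z * T

variable (A) in
/-- All relations `∑ i, x i = 0` between eigenvalues of `X` imply the relation `∑ i, y i = 0` between
the eigenvalues of `Y` for the same eigenvectors. -/
def RelationsOf (X Y : Module.End ℚ A.H1) : Prop :=
  ∀ (r : ℕ) (v : Fin r → Fin (2 * g) → ℂ) (x y : Fin r → ℂ),
    (∀ i, v i ≠ 0 ∧ Matrix.mulVec (toC A X) (v i) = x i • v i ∧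
      Matrix.mulVec (toC A Y) (v i) = y i • v i) → ∑ i, x i = 0 → ∑ i, y i = 0

variable (A) in
/-- The centre of `𝔤` is rigid: the relations between the eigenvalues of a generating element of the
centre hold for all elements of the centre. -/
def RigidCentre : Prop :=
  ∀ X, InCentre A X → Generates A X → ∀ Y, InCentre A Y → RelationsOf A X Y

/-! ### Algebraic groups, torsors and the Mumford-Tate group -/

/-- A subgroup of `GL_R(ℂ)` defined by polynomials with rational coefficients. -/
def IsAlgebraicSubgroup {R : Type} [Fintype R] [DecidableEq R] (G : Subgroup (GL R ℂ)) : Prop :=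
  ∃ I : Set (MvPolynomial (R × R) ℚ), ∀ x : GL R ℂ, x ∈ G ↔
    ∀ p ∈ I, MvPolynomial.aeval (fun b : R × R => (x : Matrix R R ℂ) b.1 b.2) p = 0

/-- The torsor `G · T⁻¹` of `G`: the matrices `F` such that `F T` is an element of `G`. It is
defined over `ℚ̄` if `T` is a matrix with algebraic entries. -/
def torsor (G : Subgroup (GL (Fin n) ℂ)) (T : Matrix (Fin n) (Fin n) ℂ) :
    Set (Matrix (Fin n) (Fin n) ℂ) :=
  {F | ∃ x ∈ G, (x : Matrix (Fin n) (Fin n) ℂ) = F * T}

variable (A) in
/-- The Hodge structure of `H^1(A)`: the complex number `z` acts on `H_1(A, ℝ) = ℂ ^ g` by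
multiplication, and on `H^1(A, ℝ)` by the transposed map, here in the basis of `H^1(A, ℚ)` which is
dual to the basis of the lattice. -/
def hodge (z : ℂ) : Matrix (Fin (2 * g)) (Fin (2 * g)) ℂ :=
  Matrix.of fun i j => ((A.lam.repr (z • A.lam i) j : ℝ) : ℂ)

/-- `R` is the matrix of the action of the complex number `z` on `M`, in the Hodge structure given by
those of `H^1(A)` and of the Tate motives (`z` acts on `ℚ(1)` by `(z z̄)⁻¹`). -/
def IsHodgeMatrix (B : Fin n → Tensors A r) (z : ℂ) (R : Matrix (Fin n) (Fin n) ℂ) : Prop :=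
  ∀ a i (j : Fin (r i) → Fin (2 * g)),
    ∑ j' : Fin (r i) → Fin (2 * g), (∏ k, hodge A z (j k) (j' k)) *
        (B a i (fun k => Pi.single (j' k) 1) : ℂ) =
      (z * (starRingEnd ℂ) z) ^ (w i) * ∑ b, R b a * (B b i (fun k => Pi.single (j k) 1) : ℂ)

/-- The Mumford-Tate group of `M`: the smallest algebraic group over `ℚ` which contains the image of
the Deligne torus. -/
def mumfordTate (B : Fin n → Tensors A r) : Subgroup (GL (Fin n) ℂ) :=
  sInf {G | IsAlgebraicSubgroup G ∧ ∀ z : ℂ, z ≠ 0 → ∃ x ∈ G,
    IsHodgeMatrix w B z (x : Matrix (Fin n) (Fin n) ℂ)}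


/-- The centre of the Lie algebra acts trivially: an element of `𝔤` which acts on `M` like a central
element acts trivially. -/
def CentreActsTrivially (B : Fin n → Tensors A r) : Prop :=
  ∀ X, InLie A X → (∀ Y, InLie A Y → IsLieMatrix B (X * Y - Y * X) 0) → IsLieMatrix B X 0

/-! ### Tensor spaces -/

/-- The action of a matrix on the `a`-th tensor power. -/
def power {R : Type} [CommRing R] (a : ℕ) (X : Matrix (Fin n) (Fin n) R) :
    Matrix (Fin a → Fin n) (Fin a → Fin n) R :=
  Matrix.of fun i j => ∏ k, X (i k) (j k)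

/-- The classes in the tensor space `M^{⊗ a} ⊗ (M^∨)^{⊗ b}`: rational linear maps from the `b`-th
tensor power to the `a`-th tensor power. -/
abbrev Tensor (n a b : ℕ) : Type := Matrix (Fin a → Fin n) (Fin b → Fin n) ℚ

/-- The complex matrix of a class. -/
def cplx {a b : ℕ} (C : Tensor n a b) : Matrix (Fin a → Fin n) (Fin b → Fin n) ℂ :=
  C.map fun q => (q : ℂ)

/-- `C` is a de Rham-Betti class: the map of the de Rham realizations which corresponds to `C` by
the comparison isomorphism, with the matrix `P`, is defined over `ℚ̄`. -/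
def IsDRBClass {a b : ℕ} (P : Matrix (Fin n) (Fin n) ℂ) (C : Tensor n a b) : Prop :=
  ∃ D : Matrix (Fin a → Fin n) (Fin b → Fin n) ℂ, (∀ i j, IsAlgebraic ℚ (D i j)) ∧
    power a P * D = cplx C * power b P

/-- `C` is a Hodge class: it is fixed by the Mumford-Tate group of `M`. -/
def IsHodgeClass {a b : ℕ} (B : Fin n → Tensors A r) (C : Tensor n a b) : Prop :=
  ∀ x ∈ mumfordTate w B, power a (x : Matrix (Fin n) (Fin n) ℂ) * cplx C =
    cplx C * power b (x : Matrix (Fin n) (Fin n) ℂ)

/-- The adjoint square `𝔥 ⊗ 𝔥`: the span of the `M ⊗ M'`, where `M` and `M'` are the matrices of the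
action of elements of `𝔤`. -/
def adjointSquare (B : Fin n → Tensors A r) : Submodule ℚ (Tensor n 2 2) :=
  Submodule.span ℚ {C | ∃ X Y, InLie A X ∧ InLie A Y ∧ ∃ M M' : Matrix (Fin n) (Fin n) ℚ,
    IsLieMatrix B X M ∧ IsLieMatrix B Y M' ∧ ∀ i j, C i j = M (i 0) (j 0) * M' (i 1) (j 1)}

/-- `G` is one of the groups which occur in the definition of `Ω_M`: an algebraic group over `ℚ` with a
torsor over `ℚ̄` which contains the matrix `P` of the periods. -/
def IsPeriodGroup (P : Matrix (Fin n) (Fin n) ℂ) (G : Subgroup (GL (Fin n) ℂ)) : Prop :=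
  IsAlgebraicSubgroup G ∧ ∃ T : Matrix (Fin n) (Fin n) ℂ, (∀ i j, IsAlgebraic ℚ (T i j)) ∧
    P ∈ torsor G T

variable (A) in
theorem RigidCentre.toRigid (hz : RigidCentre A) : N208.CT.Rigid A := by
  intro X hX hg Y hY
  refine dom_of_matrix (hz X ⟨hX.1, hX.2⟩ (fun T hT hTX Z hZ => ?_) Y ⟨hY.1, hY.2⟩)
  exact hg T hT hTX Z ⟨hZ.1, hZ.2⟩


/-- **Theorem.** Let `M` be a motive in the tensor category generated by the motive `h^1(A)` of an
abelian variety `A` over `ℚ̄` and the Tate motives, with the matrix `P` of periods. Let the centre of `𝔤`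
act trivially on `M`, or let it be rigid. The following are equivalent: all period groups contain the
Mumford-Tate group; all de Rham-Betti classes in all tensor spaces are Hodge classes; all those in
`M^{⊗ 2} ⊗ (M^∨)^{⊗ 2}` are Hodge classes; all those in the adjoint square are Hodge classes. -/
theorem result {g s n : ℕ} (A : AbVar g) (r : Fin s → ℕ) (w : Fin s → ℤ)
    (B : Fin n → Tensors A r) (P : Matrix (Fin n) (Fin n) ℂ) (hM : IsMotive w B P)
    (hc : CentreActsTrivially B ∨ RigidCentre A) : List.TFAE
      [∀ G : Subgroup (GL (Fin n) ℂ), IsPeriodGroup P G → mumfordTate w B ≤ G,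
       ∀ (a b : ℕ) (C : Tensor n a b), IsDRBClass P C → IsHodgeClass w B C,
       ∀ C : Tensor n 2 2, IsDRBClass P C → IsHodgeClass w B C,
       ∀ C ∈ adjointSquare B, IsDRBClass P C → IsHodgeClass w B C] := by
  have hwr : ∀ W : Matrix (Fin n) (Fin n) ℚ, (∀ a i v,
      ((r i : ℚ) - 2 * w i) * B a i v = ∑ b, W b a * B b i v) → N208.AM.WRel w B W := by
    intro W h a i
    refine MultilinearMap.ext fun v => ?_
    rw [_root_.smul_apply, _root_.sum_apply, smul_eq_mul, h a i v]
    rfl
  obtain ⟨hM', Wt, hW⟩ : N208.AM.Mot w B P ∧ ∃ Wt, N208.AM.WRel w B Wt := by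
    have hwt : ∃ M, N208.AM.WRel w B M := by
      obtain ⟨M, h⟩ := hM.weight
      exact ⟨M, hwr M h⟩
    refine ⟨⟨hM.basis, fun X hX => ?_, hwt, hM.det, hM.deRham⟩, hwt⟩
    obtain ⟨M, h⟩ := hM.lie X hX
    refine ⟨M, fun a i => MultilinearMap.ext fun v => ?_⟩
    rw [N208.AM.dact_apply, _root_.sum_apply, h a i v]
    rfl
  have hrelL : ∀ X M, N208.AM.Rel B X M ↔ IsLieMatrix B X M := by
    intro X M
    constructor
    · intro h a i v
      have h1 := congrArg (fun φ : MultilinearMap ℚ (fun _ : Fin (r i) => A.H1) ℚ => φ v) (h a i)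
      simp only [N208.AM.dact_apply, _root_.sum_apply, _root_.smul_apply, smul_eq_mul] at h1
      exact h1
    · intro h a i
      refine MultilinearMap.ext fun v => ?_
      rw [N208.AM.dact_apply, _root_.sum_apply, h a i v]
      rfl
  have hb : ∀ j : Fin (2 * g), A.bas j = Pi.single j 1 := fun j => by
    unfold AbVar.bas
    rw [Pi.basisFun_apply]
  have hrel : ∀ z R, N208.AM.HRel w B z R → IsHodgeMatrix w B z R := by
    intro z R h a i j
    have h1 := h a i j
    simp only [hb] at h1
    exact h1
  have hNC : CentreActsTrivially B → N208.AM.NoCentre B := fun hc X hX h =>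
    (hrelL X 0).2 (hc X hX fun Y hY => (hrelL _ 0).1 (h Y hY))
  -- the periods
  have hu : IsUnit P.det := isUnit_iff_ne_zero.2 hM.det
  have hPP := Matrix.mul_nonsing_inv _ hu
  have hPP' := Matrix.nonsing_inv_mul _ hu
  -- period groups
  have hpt : ∀ G : Subgroup (GL (Fin n) ℂ), IsPeriodGroup P G →
      N208.AM.PtM P {M | ∃ x ∈ G, (x : Matrix (Fin n) (Fin n) ℂ) = M} := by
    rintro G ⟨hG, T, hT, hP⟩
    have hdet : T.det ≠ 0 := by
      obtain ⟨x, -, hxT⟩ := hP
      intro h0
      have h1 : (x : Matrix (Fin n) (Fin n) ℂ).det = 0 := by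
        rw [hxT, Matrix.det_mul, h0, mul_zero]
      exact (Matrix.GeneralLinearGroup.det x).ne_zero h1
    obtain ⟨T', h1, h2⟩ := Pool.Agent.R917.alg_inv hT hdet
    obtain ⟨x, hx, hxT⟩ := hP
    exact ⟨Pool.Agent.R917.algGrp_of hG, T, T', h1, h2, x, hx, hxT⟩
  -- the stabilizer of a class is a period group
  have hstab : ∀ {a b : ℕ} (C : Tensor n a b), IsDRBClass P C →
      IsPeriodGroup P (U157.FP.stab (cplx C)) := by
    rintro a b C ⟨D, hD, hPD⟩
    obtain ⟨T, T', hTT, hTT', hT, hTC⟩ := U157.FP.alg_point C hD hPP hPP' hPD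
    refine ⟨U157.FP.stab_alg C, T, hT, ?_⟩
    let x : GL (Fin n) ℂ := ⟨P * T, T' * P⁻¹, by
      rw [Matrix.mul_assoc, ← Matrix.mul_assoc T, hTT, Matrix.one_mul, hPP], by
      rw [Matrix.mul_assoc, ← Matrix.mul_assoc P⁻¹, hPP', Matrix.one_mul, hTT']⟩
    refine ⟨x, ?_, rfl⟩
    change U157.FP.pw a (P * T) * cplx C = cplx C * U157.FP.pw b (P * T)
    rw [U157.FP.pw_mul, U157.FP.pw_mul, Matrix.mul_assoc]
    have h1 : U157.FP.pw a T * cplx C = D * U157.FP.pw b T := hTC
    have h2 : U157.FP.pw a P * D = cplx C * U157.FP.pw b P := hPD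
    rw [h1, ← Matrix.mul_assoc, h2, Matrix.mul_assoc]
  -- the adjoint square
  have hsq : ∀ C ∈ adjointSquare B, U157.FP.rx C ∈ N208.TS.adSq B := by
    intro C hC
    induction hC using Submodule.span_induction with
    | mem C hC =>
      obtain ⟨X, Y, hX, hY, M, M', h1, h2, h3⟩ := hC
      refine Submodule.subset_span ⟨X, Y, hX, hY, M, M', (hrelL _ _).2 h1, (hrelL _ _).2 h2, ?_⟩
      ext ⟨i, k⟩ ⟨j, l⟩
      exact h3 _ _
    | zero => exact Submodule.zero_mem _
    | add a b _ _ ha hb => exact Submodule.add_mem _ ha hb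
    | smul c a _ ha => exact Submodule.smul_mem _ c ha
  have hsq' : ∀ C' ∈ N208.TS.adSq B, ∃ C ∈ adjointSquare B, U157.FP.rx C = C' := by
    intro C' hC
    induction hC using Submodule.span_induction with
    | mem C' hC =>
      obtain ⟨X, Y, hX, hY, M, M', h1, h2, rfl⟩ := hC
      refine ⟨Matrix.of fun i j => M (i 0) (j 0) * M' (i 1) (j 1),
        Submodule.subset_span ⟨X, Y, hX, hY, M, M', (hrelL _ _).1 h1, (hrelL _ _).1 h2,
          fun i j => rfl⟩, ?_⟩
      ext ⟨i, k⟩ ⟨j, l⟩
      rfl
    | zero => exact ⟨0, Submodule.zero_mem _, rfl⟩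
    | add a b _ _ ha hb =>
      obtain ⟨a', ha, rfl⟩ := ha
      obtain ⟨b', hb, rfl⟩ := hb
      exact ⟨a' + b', Submodule.add_mem _ ha hb, rfl⟩
    | smul c a _ ha =>
      obtain ⟨a', ha, rfl⟩ := ha
      exact ⟨c • a', Submodule.smul_mem _ c ha, rfl⟩
  -- de Rham-Betti classes in the square
  have hdr : ∀ C : Tensor n 2 2, IsDRBClass P C ↔
      ∀ p q, IsAlgebraic ℚ (((P⁻¹ ⊗ₖ P⁻¹) * (U157.FP.rx C).map (fun x => (x : ℂ)) *
        (P ⊗ₖ P)) p q) := by
    intro C
    have hk : (P⁻¹ ⊗ₖ P⁻¹) * (P ⊗ₖ P) = 1 := by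
      rw [← Matrix.mul_kronecker_mul, hPP', Matrix.one_kronecker_one]
    have hk' : (P ⊗ₖ P) * (P⁻¹ ⊗ₖ P⁻¹) = 1 := by
      rw [← Matrix.mul_kronecker_mul, hPP, Matrix.one_kronecker_one]
    have hcx : U157.FP.rx (cplx C) = (U157.FP.rx C).map (fun x => (x : ℂ)) := rfl
    constructor
    · rintro ⟨D, hD, h⟩ p q
      have h1 := congrArg U157.FP.rx h
      have h2 : U157.FP.rx (power 2 P) = P ⊗ₖ P := U157.FP.rx_pw P
      rw [U157.FP.rx_mul, U157.FP.rx_mul, h2, hcx] at h1
      rw [Matrix.mul_assoc, ← h1, ← Matrix.mul_assoc, hk, Matrix.one_mul]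
      exact hD _ _
    · intro h
      obtain ⟨D, hD⟩ := U157.FP.rx_surj
        ((P⁻¹ ⊗ₖ P⁻¹) * (U157.FP.rx C).map (fun x => (x : ℂ)) * (P ⊗ₖ P))
      refine ⟨D, fun i j => ?_, U157.FP.rx_inj ?_⟩
      · have h1 := h (U157.FP.e2 n i) (U157.FP.e2 n j)
        rw [← hD] at h1
        unfold U157.FP.rx at h1
        rwa [Matrix.submatrix_apply, Equiv.symm_apply_apply, Equiv.symm_apply_apply] at h1
      · have h2 : U157.FP.rx (power 2 P) = P ⊗ₖ P := U157.FP.rx_pw P
        rw [U157.FP.rx_mul, U157.FP.rx_mul, h2, hD, hcx, Matrix.mul_assoc (P⁻¹ ⊗ₖ P⁻¹),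
          ← Matrix.mul_assoc (P ⊗ₖ P), hk', Matrix.one_mul]
  have hc' : N208.AM.NoCentre B ∨ N208.CT.Rigid A := hc.imp hNC (fun h => h.toRigid A)
  obtain ⟨N, hNR, -⟩ := N208.AM.exists_J hM'
  -- the matrices of the Hodge structure are unique
  have huniq : ∀ z : ℂ, z ≠ 0 → ∀ R R' : Matrix (Fin n) (Fin n) ℂ, IsHodgeMatrix w B z R →
      IsHodgeMatrix w B z R' → R = R' := by
    intro z hz R R' h h'
    have hzz : ∀ i, (z * (starRingEnd ℂ) z) ^ (w i) ≠ 0 := fun i =>
      zpow_ne_zero _ (mul_ne_zero hz ((map_ne_zero _).2 hz))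
    ext b a
    rw [← sub_eq_zero]
    refine eq_zero_of_dual (k := ℚ) fun lam => ?_
    refine congrFun (N208.AM.eq_of_comb hM.basis (x := fun b => lam (R b a - R' b a))
      (y := fun _ => 0) fun i => ?_) b
    refine Basis.ext_multilinear (fun _ => A.bas) fun j => ?_
    have h1 : ∑ b, R b a * (B b i (fun k => A.bas (j k)) : ℂ) =
        ∑ b, R' b a * (B b i (fun k => A.bas (j k)) : ℂ) := by
      have h2 := (h a i j).symm.trans (h' a i j)
      simp only [hb]
      exact mul_left_cancel₀ (hzz i) h2
    have h3 : ∑ b, (R b a - R' b a) * (B b i (fun k => A.bas (j k)) : ℂ) = 0 := by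
      simp only [sub_mul, Finset.sum_sub_distrib]
      rw [h1, sub_self]
    have h4 := congrArg lam h3
    rw [map_sum, map_zero] at h4
    rw [_root_.sum_apply, _root_.sum_apply]
    simp only [_root_.smul_apply, smul_eq_mul, zero_mul, Finset.sum_const_zero]
    rw [← h4]
    exact Finset.sum_congr rfl fun b _ => (N208.TS.lam_rat lam _ _).symm
  -- the circle
  have hcirc : ∀ t : ℝ, t ∈ Set.Ioo (-Real.pi) Real.pi → ∃ x ∈ mumfordTate w B,
      (x : Matrix (Fin n) (Fin n) ℂ) = NormedSpace.exp ((t : ℂ) • N208.AM.cxm N) := by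
    intro t ht
    have hz : Complex.exp (t * Complex.I) ≠ 0 := Complex.exp_ne_zero _
    have harg : Complex.arg (Complex.exp (t * Complex.I)) = t := by
      rw [Complex.exp_mul_I]
      exact Complex.arg_cos_add_sin_mul_I (Set.Ioo_subset_Ioc_self ht)
    have hK : N208.AM.KK Wt N (Complex.exp (t * Complex.I)) = (t : ℂ) • N208.AM.cxm N := by
      unfold N208.AM.KK
      rw [harg, Complex.norm_exp_ofReal_mul_I, Real.log_one, Complex.ofReal_zero, zero_smul,
        zero_add]
    have h1 := hrel _ _ (N208.AM.hrel_exp hW hNR hz)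
    rw [hK] at h1
    refine ⟨N208.AM.eG ((t : ℂ) • N208.AM.cxm N), Subgroup.mem_sInf.2 fun G' hG' => ?_, rfl⟩
    obtain ⟨x, hx, hxz⟩ := hG'.2 _ hz
    have h2 : x = N208.AM.eG ((t : ℂ) • N208.AM.cxm N) := Units.ext (huniq _ hz _ _ hxz h1)
    rwa [← h2]
  tfae_have 1 → 2 := fun h a b C hC x hx => h _ (hstab C hC) hx
  tfae_have 2 → 3 := fun h C hC => h 2 2 C hC
  tfae_have 3 → 4 := fun h C _ hC => h C hC
  tfae_have 4 → 1 := by
    intro h G hG
    have hs : N208.TS.SqHodge B P N := by
      intro C' hC' halg
      obtain ⟨C, hC, rfl⟩ := hsq' C' hC'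
      have h1 := h C hC ((hdr C).2 halg)
      refine U157.FP.cm2_cx_eq_zero (U157.FP.cm2_of_exp ?_)
      have hev : ∀ᶠ t : ℝ in nhds 0, t ∈ Set.Ioo (-Real.pi) Real.pi :=
        Ioo_mem_nhds (neg_lt_zero.2 Real.pi_pos) Real.pi_pos
      filter_upwards [hev] with t ht
      obtain ⟨x, hx, hxe⟩ := hcirc t ht
      have h3 : U157.FP.pw 2 (x : Matrix (Fin n) (Fin n) ℂ) * cplx C =
        cplx C * U157.FP.pw 2 (x : Matrix (Fin n) (Fin n) ℂ) := h1 x hx
      have h2 := congrArg U157.FP.rx h3
      rw [U157.FP.rx_mul, U157.FP.rx_mul, U157.FP.rx_pw, hxe] at h2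
      exact h2
    refine sInf_le ⟨hG.1, fun z hz => ?_⟩
    obtain ⟨⟨x, hx, hx'⟩, h4⟩ := U157.FP.sq_all hM' hW (hpt G hG) hc' hNR hs hz
    refine ⟨x, hx, ?_⟩
    rw [hx']
    exact hrel _ _ h4
  tfae_finish

end Pool.Agent.Results.MP_f11a48_ag.AdjointSquareDecides
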