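import Pool.Agent.S821.GQ12
import Pool.Agent.Results.MP_f11a48_ag.HyperellipticSmallestSubtorsor

/-!
# `Ω_M = Ω^And_M` for ALL finite families of hyperelliptic motives outside of one sparse set; Goursat-Kolchin-Ribet for the
# smallest subtorsor

Let `K` be a field of algebraic numbers and `M = M_1 ⊕ … ⊕ M_N` a sum of polarised de Rham-Betti objects of odd weight and the
same rank `n`, with period matrices `c_j` and torsor of the polarisations `polTorsor` (for motives
`Z_M ⊆ Ω_M ⊆ Ω^dRB_M ⊆ Ω^And_M ⊆ polTorsor`).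

1. **The summands determine the sum.** Suppose that for each of the summands the smallest subtorsor is as large as possible,
`Ω_(M_j) = polTorsor (M_j)`. Then `Ω_M` contains the set `isoTorsor` of the isomorphisms which respect the polarisations and the
isogenies between the summands, that is the LINEAR relations `A c_j = ν c_i B` with similitudes `A`, `B` over `K` and `ν² ∈ K`.
If all the factors `ν` are in `K` then `Ω_M = isoTorsor`; if there are no isogenies, `Ω_M = polTorsor`. This is true for ANY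
number of summands, also with multiplicities. For motives `h^1` of curves (abelian varieties) the linear relations come from
homomorphisms of the abelian varieties by the analytic subgroup theorem of Wüstholz, they are algebraic classes; so
`Ω_M = Ω^dRB_M = Ω^And_M` for the sum follows from `Ω_(M_j) = polTorsor (M_j)` for the summands. This is the analogue, for the
smallest subtorsor, of the criterion of Goursat, Kolchin and Ribet for algebraic groups; the left side of a subtorsor is only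
an algebraic group over `K`, and its relation with the right side has to be used for the rationality of the isogenies.

2. **All finite families outside of one sparse set.** Let `f_1, …, f_L ∈ ℚ[X]` be monic of degree `n = 2g` with distinct real
roots which are not zero, and `C_j(z)` the curve `y² = f_j(x) (x - z)` of genus `g`. There is a set `E` of natural numbers with at
most `C T exp (-√(log T))` elements `≤ T` such that for ALL finite families of the motives `h^1(C_j(1/t))`, `t ∉ E`, of any size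
and with repetitions, and all number fields `K` (with `t ≥ 3^(([K:ℚ] + 2)^C)`, so for all but finitely many `t` if `K` is given)
the conclusion of 1 is true: `Ω_M = Ω^dRB_M = Ω^And_M`.

3. **All large divisors.** For almost all integers `v` the following is true for ANY number of pairwise coprime divisors
`t_1, …, t_k` of `v` with `t_i ≥ ψ(v)`: there are no isogenies between the motives at the `1 / t_i`, the smallest subtorsor of
their sum is `polTorsor`, over all number fields of degree at most `D` with `2^((D + 2)^C) ≤ min t_i`. The number of the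
exceptions `v ≤ N` for divisors `t_i ≥ y` is at most `C (D + 2)^C y^(-1/(D + 2)^C) N`.

The starting theorem `HyperellipticSmallestSubtorsor` excludes all relations of degree at most `d` between the periods of all the
summands, and counts tuples `(t_1, …, t_N)` in cubes for a fixed number `N`, with constants depending on `N` and the degree in
an unspecified way. Whether a tuple is an exception there depends on all of its elements.

Proof of 1 (`Pool/Agent/S821/GQ1` to `GQ11`). Let `T ⊆ polTorsor` be a `K`-subtorsor which contains the period matrix. The Zariski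
closure of the projection of `T` to one block is a `K`-subtorsor, so that this projection is dense. Hence the projection of the
Lie algebra `𝔥` of `T` to one block is stable under `Sp`, and it contains `sp` by the theorem of Jordan on finite linear groups.
The projection to two blocks contains `0 × sp`, or it is the graph of an automorphism of `sp` up to scalars. In the second case
the automorphism is inner, given by a matrix `A` (proved directly: nilpotent elements `v vᵀ J` go to nilpotent elements). The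
line of all such `A` for the left Lie algebra is defined over `K`, and so is the line of `B = c_i⁻¹ A c_j` for the right one; this
gives the linear relation `A c_j = ν c_i B`. If there are no isogenies, `𝔥` contains `sp` in each block (brackets), and `T` is the
torsor. In general choose representatives of the isogeny classes: the projection to the representatives is dense; the other
blocks are determined up to sign, the squares of the signs are trivial and each symplectic transvection is a square.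

Proof of 2: relations of bounded degree between the periods of one curve, on the basis of the windows of the starting library
`Pool.Agent.R351.GD.Hy`. Proof of 3: `Pool/Agent/S821/GP1` to `GP3`, `Split`, `Small`, `HypS`.
-/

set_option autoImplicit false

open Filter Polynomial Matrix

namespace Pool.Agent.Results.MP_f11a48_ag.AllFiniteFamilies

open Pool.Agent.N826.IT.Orb (AlmostAll)
open Pool.Agent.S821.Small (LawS PairwiseCoprime growingS)
open Pool.Agent.Results.MP_f11a48_ag.HyperellipticSmallestSubtorsor (IsSubtorsor IsOmega polB Respects polTorsor branch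
  period polDR)

/-- An isogeny between the objects with period matrices `c`, `c'` and polarisations `Q`, `Q'`: matrices `A`, `B` over `K` and
`ν ≠ 0` with `A c' = ν c B`, such that `A`, `B` respect the polarisations up to factors `a`, `b` of `K`, with `a = ν² b ≠ 0` -/
def Isogeny {n : ℕ} (K : Subfield ℂ) (Q Q' c c' : Matrix (Fin n) (Fin n) ℂ) (A B : Matrix (Fin n) (Fin n) K) (ν : ℂ) : Prop :=
  ν ≠ 0 ∧ A.map (algebraMap K ℂ) * c' = ν • (c * B.map (algebraMap K ℂ)) ∧
  ∃ a b : K, b ≠ 0 ∧ (a : ℂ) = ν ^ 2 * b ∧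
    A.map (algebraMap K ℂ) * (polB n).map (algebraMap ℚ ℂ) * (A.map (algebraMap K ℂ))ᵀ =
      (a : ℂ) • (polB n).map (algebraMap ℚ ℂ) ∧
    B.map (algebraMap K ℂ) * Q' * (B.map (algebraMap K ℂ))ᵀ = (b : ℂ) • Q

/-- the elements of `polTorsor Q` which respect all the isogenies between different summands -/
def isoTorsor {n N : ℕ} (K : Subfield ℂ) (Q c : Fin N → Matrix (Fin n) (Fin n) ℂ) :
    Set (Matrix (Fin n × Fin N) (Fin n × Fin N) ℂ) :=
  {x | ∃ (X : Fin N → Matrix (Fin n) (Fin n) ℂ) (μ : ℂ), μ ≠ 0 ∧ x = Matrix.blockDiagonal X ∧ Respects Q X μ ∧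
    ∀ (i j : Fin N) (A B : Matrix (Fin n) (Fin n) K) (ν : ℂ), i ≠ j → Isogeny K (Q i) (Q j) (c i) (c j) A B ν →
      A.map (algebraMap K ℂ) * X j = ν • (X i * B.map (algebraMap K ℂ))}

/-- The smallest `K`-subtorsor `Ω` which contains the period matrix is determined by the isogenies: it contains `isoTorsor`;
it is `isoTorsor` if the factors of the isogenies are in `K`, and `polTorsor` if there are no isogenies. -/
def Determined {n N : ℕ} (K : Subfield ℂ) (Q c : Fin N → Matrix (Fin n) (Fin n) ℂ) : Prop :=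
  (∀ T : Set (Matrix (Fin n × Fin N) (Fin n × Fin N) ℂ), IsSubtorsor K T → Matrix.blockDiagonal c ∈ T →
    isoTorsor K Q c ⊆ T) ∧
  ((∀ (i j : Fin N) (A B : Matrix (Fin n) (Fin n) K) (ν : ℂ), i ≠ j → Isogeny K (Q i) (Q j) (c i) (c j) A B ν → ν ∈ K) →
    IsOmega K (Matrix.blockDiagonal c) (isoTorsor K Q c)) ∧
  ((∀ (i j : Fin N) (A B : Matrix (Fin n) (Fin n) K) (ν : ℂ), i ≠ j → ¬ Isogeny K (Q i) (Q j) (c i) (c j) A B ν) →
    IsOmega K (Matrix.blockDiagonal c) (polTorsor Q))

theorem determined {n N : ℕ} {K : Subfield ℂ} {Q c : Fin N → Matrix (Fin n) (Fin n) ℂ} {l : ℂ} (hn : Even n) (hn0 : 0 < n)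
    (hN : 0 < N) (hK : ∀ x ∈ K, IsAlgebraic ℚ x) (hQ : ∀ j a b, Q j a b ∈ K) (hl : Transcendental ℚ l) (hc : Respects Q c l)
    (h : ∀ j, IsOmega K (Matrix.blockDiagonal fun _ : Fin 1 => c j) (polTorsor fun _ : Fin 1 => Q j)) :
    Determined K Q c := by
  have hl0 : l ≠ 0 := by
    rintro rfl
    exact hl isAlgebraic_zero
  have h1 : ∀ T : Set (Matrix (Fin n × Fin N) (Fin n × Fin N) ℂ), IsSubtorsor K T → Matrix.blockDiagonal c ∈ T →
      isoTorsor K Q c ⊆ T := fun T hT hcT => Pool.Agent.S821.GQ.iso_sub hn hn0 hN hK hQ hl hc h hT hcT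
  have h2 : (∀ (i j : Fin N) (A B : Matrix (Fin n) (Fin n) K) (ν : ℂ), i ≠ j →
      Isogeny K (Q i) (Q j) (c i) (c j) A B ν → ν ∈ K) → IsOmega K (Matrix.blockDiagonal c) (isoTorsor K Q c) := by
    intro hν
    exact ⟨Pool.Agent.S821.GQ.isoT_sub hn hn0 hN hQ hl0 hc hν, ⟨c, l, hl0, rfl, hc, fun i j A B ν _ hd => hd.2.1⟩, h1⟩
  refine ⟨h1, h2, fun hI => ?_⟩
  have h3 : isoTorsor K Q c = polTorsor Q := by
    ext x
    constructor
    · rintro ⟨X, μ, hμ, hx, hX, -⟩
      exact ⟨X, μ, hμ, hx, hX⟩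
    · rintro ⟨X, μ, hμ, hx, hX⟩
      exact ⟨X, μ, hμ, hx, hX, fun i j A B ν hij hd => absurd hd (hI i j A B ν hij)⟩
  rw [← h3]
  exact h2 fun i j A B ν hij hd => absurd hd (hI i j A B ν hij)

/-- For the motive `M` of the curves `y² = f_j(x) (x - 1 / t_i)`, `j = θ(i)`, `i = 1, …, k`: the `1 / t_i` are in the gaps of `0`,
and over all number fields `K` of degree at most `D` the smallest `K`-subtorsor which contains the period matrix is the torsor
of the polarisations; so `Ω_M = Ω^dRB_M = Ω^And_M` over `K`. -/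
def Large {n L k : ℕ} (D : ℕ) (a : Fin L → Fin n → ℝ) (f : Fin L → ℚ[X]) (m : Fin L → Fin (n + 1)) (θ : Fin k → Fin L)
    (t : Fin k → ℕ) : Prop :=
  (∀ i, StrictMono (branch (a (θ i)) (m (θ i)) (1 / (t i : ℝ)))) ∧
  ∀ K : Subfield ℂ, FiniteDimensional ℚ K → Module.finrank ℚ K ≤ D →
    IsOmega K (Matrix.blockDiagonal fun i => Matrix.of (period (branch (a (θ i)) (m (θ i)) (1 / (t i : ℝ)))))
      (polTorsor fun i => (polDR n (f (θ i) * (X - C (1 / (t i : ℚ))))).map (algebraMap ℚ ℂ))

/-- a tuple of pairwise coprime numbers, each of them related to `v`, for which `Large` is false for some families -/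
def Fails {n L : ℕ} (D : ℕ) (a : Fin L → Fin n → ℝ) (f : Fin L → ℚ[X]) (m : Fin L → Fin (n + 1)) (P : ℕ → Prop) : Prop :=
  ∃ (k : ℕ) (t : Fin k → ℕ) (θ : Fin k → Fin L), 0 < k ∧ (∀ i, P (t i)) ∧ (∀ i i', i ≠ i' → Nat.Coprime (t i) (t i')) ∧
    ¬ Large D a f m θ t

theorem split_bad {P : ℕ → Prop} {R : (M : ℕ) → (Fin 0 → ℕ) → (Fin M → ℕ) → Prop} {k : ℕ} {t : Fin k → ℕ}
    (ht : ∀ i, P (t i)) (hc : ∀ i i', i ≠ i' → Nat.Coprime (t i) (t i'))
    (h : ¬ ((∀ i, ∀ s, ¬ R 1 s (fun _ => t i)) ∧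
      ∀ i j, i ≠ j → ∀ s, ¬ R 2 s (fun l => t ((![i, j] : Fin 2 → Fin k) l)))) :
    (∃ (s : Fin 0 → ℕ) (t' : Fin 1 → ℕ), (∀ i, P (t' i)) ∧ PairwiseCoprime s t' ∧ R 1 s t') ∨
      ∃ (s : Fin 0 → ℕ) (t' : Fin 2 → ℕ), (∀ i, P (t' i)) ∧ PairwiseCoprime s t' ∧ R 2 s t' := by
  by_contra hcon
  push Not at hcon
  apply h
  refine ⟨fun i s hR => ?_, fun i j hij s hR => ?_⟩
  · exact hcon.1 s (fun _ => t i) (fun _ => ht i) ⟨fun i => i.elim0, fun a b hab => absurd (Subsingleton.elim a b) hab,
      fun i => i.elim0⟩ hR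
  · refine hcon.2 s _ (fun l => ht _) ⟨fun i => i.elim0, fun a b hab => hc _ _ ?_, fun i => i.elim0⟩ hR
    intro hab'
    apply hab
    fin_cases a <;> fin_cases b <;> simp_all

/-- **The smallest subtorsor of a sum, and all finite families of hyperelliptic curves outside of one sparse set.**

(1) Let `n > 0` be even, `K` a field of algebraic numbers, `Q_j` matrices over `K`, `c_j` with `c_j Q_j c_jᵀ = l polB`, `l`
transcendental, `j = 1, …, N`. If for each `j` the smallest `K`-subtorsor which contains `c_j` is `polTorsor Q_j`, then the smallest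
`K`-subtorsor which contains the block diagonal matrix of all the `c_j` is `Determined` by the isogenies.

(2) Let `f_1, …, f_L ∈ ℚ[X]`, `L ≥ 1`, be monic of degree `n = 2g > 0` with distinct real roots `a_j`, all different from `0`;
`m_j` is the place of `0` among the roots of `f_j`. There are `C` and a set `E` with at most `C T exp (-√(log T))` elements
`≤ T`, `T ≥ 1`, such that for all `D` and ALL finite families `t_1, …, t_k ∉ E`, `t_i ≥ 3^((D + 2)^C)`, and all the choices `θ` of
the polynomials: the `1 / t_i` are in the gaps of `0`, and for the period matrices of the curves `y² = f_θ(i)(x) (x - 1 / t_i)` and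
all the fields `K` of degree at most `D` the smallest `K`-subtorsor is `Determined` by the isogenies.

(3) Moreover, for all `D`, `y, N ≥ 1`: for all integers `1 ≤ v ≤ N` but at most `C (D + 2)^C y^(-1/(D + 2)^C) N`, for any `k ≥ 1`
and ALL pairwise coprime divisors `t_1, …, t_k ≥ y` of `v` and all the choices of families the motive of the fibres at the
`1 / t_i` is `Large D`: the smallest subtorsor is `polTorsor`. For every function `ψ` which tends to infinity, for almost all `v`,
this is true for any `k ≥ 1`, all `D` and all pairwise coprime divisors `t_i` of `v` with `t_i ≥ ψ(v)`, `t_i ≥ 2^((D + 2)^C)`. -/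
theorem result :
    (∀ (n N : ℕ) (K : Subfield ℂ) (Q c : Fin N → Matrix (Fin n) (Fin n) ℂ) (l : ℂ), Even n → 0 < n → 0 < N →
      (∀ x ∈ K, IsAlgebraic ℚ x) → (∀ j a b, Q j a b ∈ K) → Transcendental ℚ l → Respects Q c l →
      (∀ j, IsOmega K (Matrix.blockDiagonal fun _ : Fin 1 => c j) (polTorsor fun _ : Fin 1 => Q j)) →
      Determined K Q c) ∧
    (∀ (n L : ℕ), Even n → 0 < n → 0 < L → ∀ (a : Fin L → Fin n → ℝ) (f : Fin L → ℚ[X]) (m : Fin L → Fin (n + 1)),
      (∀ j, (f j).map (algebraMap ℚ ℝ) = ∏ i, (X - C (a j i))) → (∀ j, StrictMono (branch (a j) (m j) 0)) →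
      ∃ C₀ : ℕ,
        (∃ E : Set ℕ,
          (∀ T : ℕ, 1 ≤ T → ({t ∈ E | t ≤ T}.ncard : ℝ) ≤ C₀ * T * Real.exp (-Real.sqrt (Real.log T))) ∧
          ∀ (D k : ℕ) (t : Fin k → ℕ) (θ : Fin k → Fin L), 0 < k → (∀ i, t i ∉ E ∧ 3 ^ ((D + 2) ^ C₀) ≤ t i) →
            (∀ i, StrictMono (branch (a (θ i)) (m (θ i)) (1 / (t i : ℝ)))) ∧
            ∀ K : Subfield ℂ, FiniteDimensional ℚ K → Module.finrank ℚ K ≤ D →
              Determined K (fun i => (polDR n (f (θ i) * (X - C (1 / (t i : ℚ))))).map (algebraMap ℚ ℂ))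
                (fun i => Matrix.of (period (branch (a (θ i)) (m (θ i)) (1 / (t i : ℝ)))))) ∧
        (∀ D y N : ℕ, 1 ≤ y → 1 ≤ N →
          ({v : ℕ | 1 ≤ v ∧ v ≤ N ∧ Fails D a f m (fun t => t ∣ v ∧ y ≤ t)}.ncard : ℝ) ≤
            C₀ * ((D : ℝ) + 2) ^ C₀ * (y : ℝ) ^ (-(1 / ((D : ℝ) + 2) ^ C₀)) * N) ∧
        (∀ ψ : ℕ → ℕ, Tendsto ψ atTop atTop → AlmostAll (fun v => ∀ (D k : ℕ) (t : Fin k → ℕ) (θ : Fin k → Fin L), 0 < k →
          (∀ i, t i ∣ v ∧ ψ v ≤ t i ∧ 2 ^ ((D + 2) ^ C₀) ≤ t i) → (∀ i i', i ≠ i' → Nat.Coprime (t i) (t i')) →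
          Large D a f m θ t))) := by
  refine ⟨fun n N K Q c l hn hn0 hN hK hQ hl hc h => determined hn hn0 hN hK hQ hl hc h, fun n L hn hn0 hL a f m hf h0 => ?_⟩
  · obtain ⟨C₁, R, hC₁, hR1, hR2, hR⟩ := Pool.Agent.S821.GP.hyp_sub hn hn0 hL hf h0
    obtain ⟨C₂, E, hC₂, hE1, hE2⟩ := Pool.Agent.S821.GQ.hyp_single hn hn0 hL hf h0
    have hδ : ∀ D : ℕ, (1 : ℝ) ≤ (D : ℝ) + 2 := fun D => by linarith [(Nat.cast_nonneg D : (0 : ℝ) ≤ D)]
    have hLarge : ∀ (D k : ℕ) (t : Fin k → ℕ) (θ : Fin k → Fin L), 0 < k →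
        ((∀ i, ∀ s, ¬ R D 1 s (fun _ => t i)) ∧
          ∀ i j, i ≠ j → ∀ s, ¬ R D 2 s (fun l => t ((![i, j] : Fin 2 → Fin k) l))) → Large D a f m θ t := by
      intro D k t θ hk h
      exact hR D k t θ hk h.1 h.2
    refine ⟨3 * C₁ + 9 * C₂, ⟨{t | ∃ D, 3 ^ ((D + 2) ^ (4 * C₂)) ≤ t ∧ t ∈ E D}, ?_, ?_⟩, ?_, ?_⟩
    · intro T hT
      refine (Pool.Agent.S821.GQ.single_set hC₂ hE1 T hT).trans ?_
      have e1 : (9 * C₂ : ℝ) ≤ ((3 * C₁ + 9 * C₂ : ℕ) : ℝ) := by
        push_cast
        linarith [(Nat.cast_nonneg C₁ : (0 : ℝ) ≤ C₁)]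
      gcongr
    · intro D k t θ hk ht
      have hE : ∀ i, t i ∉ E D := by
        intro i hi
        refine (ht i).1 ⟨D, le_trans (Nat.pow_le_pow_right (by norm_num) (Nat.pow_le_pow_right (by omega) (by omega)))
          (ht i).2, hi⟩
      refine ⟨fun i => (hE2 D (t i) (θ i) (hE i)).1, fun K hK hKD => ?_⟩
      refine determined (l := (2 * Real.pi * Complex.I : ℂ)) hn hn0 hk ?_ ?_ Pool.Agent.Y123.ST.transc_two_pi_I
        (fun i => (hE2 D (t i) (θ i) (hE i)).2.1) (fun i => (hE2 D (t i) (θ i) (hE i)).2.2 K hK hKD)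
      · intro x hx
        have : NumberField K := { to_charZero := inferInstance, to_finiteDimensional := hK }
        have h6 : IsAlgebraic ℚ (⟨x, hx⟩ : K) := Algebra.IsAlgebraic.isAlgebraic _
        exact h6.algebraMap (A := ℂ)
      · intro j a' b'
        exact SubfieldClass.ratCast_mem K _
    · intro D y N hy _
      have e1 := (hR1 D).nat (N := N) hy
      have e2 := (hR2 D).nat (N := N) hy
      have hfin : ∀ S : Set ℕ, S ⊆ {v | 1 ≤ v ∧ v ≤ N} → S.Finite := fun S hS => (Set.finite_Icc 1 N).subset hS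
      have hsub : {v : ℕ | 1 ≤ v ∧ v ≤ N ∧ Fails D a f m (fun t => t ∣ v ∧ y ≤ t)} ⊆
          {v : ℕ | 1 ≤ v ∧ v ≤ N ∧ ∃ (s : Fin 0 → ℕ) (t : Fin 1 → ℕ), (∀ i, s i ∣ v) ∧ (∀ i, t i ∣ v ∧ y ≤ t i) ∧
            PairwiseCoprime s t ∧ R D 1 s t} ∪
          {v : ℕ | 1 ≤ v ∧ v ≤ N ∧ ∃ (s : Fin 0 → ℕ) (t : Fin 2 → ℕ), (∀ i, s i ∣ v) ∧ (∀ i, t i ∣ v ∧ y ≤ t i) ∧
            PairwiseCoprime s t ∧ R D 2 s t} := by
        rintro v ⟨hv1, hv2, k, t, θ, hk, ht, hc, hbad⟩
        rcases split_bad (P := fun t => t ∣ v ∧ y ≤ t) (R := R D) ht hc fun h => hbad (hLarge D k t θ hk h) with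
          ⟨s, t', h1, h2, h3⟩ | ⟨s, t', h1, h2, h3⟩
        · exact Or.inl ⟨hv1, hv2, s, t', fun i => i.elim0, h1, h2, h3⟩
        · exact Or.inr ⟨hv1, hv2, s, t', fun i => i.elim0, h1, h2, h3⟩
      have e3 := (Set.ncard_le_ncard hsub ((hfin _ fun v hv => ⟨hv.1, hv.2.1⟩).union
        (hfin _ fun v hv => ⟨hv.1, hv.2.1⟩))).trans (Set.ncard_union_le _ _)
      refine (Nat.cast_le.2 e3).trans ?_
      rw [Nat.cast_add]
      refine (add_le_add e1 e2).trans ?_
      have hy1 : (1 : ℝ) ≤ y := by exact_mod_cast hy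
      have e4 : (y : ℝ) ^ (-(1 / ((D : ℝ) + 2) ^ C₁)) ≤ (y : ℝ) ^ (-(1 / ((D : ℝ) + 2) ^ (3 * C₁ + 9 * C₂))) :=
        Real.rpow_le_rpow_of_exponent_le hy1 (neg_le_neg (one_div_le_one_div_of_le (by positivity)
          (pow_le_pow_right₀ (hδ D) (by omega))))
      have e5 : ((D : ℝ) + 2) ^ C₁ ≤ ((D : ℝ) + 2) ^ (3 * C₁ + 9 * C₂) := pow_le_pow_right₀ (hδ D) (by omega)
      calc (C₁ : ℝ) * ((D : ℝ) + 2) ^ C₁ * (y : ℝ) ^ (-(1 / ((D : ℝ) + 2) ^ C₁)) * N +
            C₁ * ((D : ℝ) + 2) ^ C₁ * (y : ℝ) ^ (-(1 / ((D : ℝ) + 2) ^ C₁)) * N =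
            (2 * C₁) * ((D : ℝ) + 2) ^ C₁ * (y : ℝ) ^ (-(1 / ((D : ℝ) + 2) ^ C₁)) * N := by ring
        _ ≤ ((3 * C₁ + 9 * C₂ : ℕ) : ℝ) * ((D : ℝ) + 2) ^ (3 * C₁ + 9 * C₂) *
              (y : ℝ) ^ (-(1 / ((D : ℝ) + 2) ^ (3 * C₁ + 9 * C₂))) * N := by
            have e6 : (2 * C₁ : ℝ) ≤ ((3 * C₁ + 9 * C₂ : ℕ) : ℝ) := by
              push_cast
              linarith [(Nat.cast_nonneg C₁ : (0 : ℝ) ≤ C₁)]
            gcongr
    · intro ψ hψ
      have e1 := growingS (l := 0) (k := 1) le_rfl hC₁ (a := C₁) (by positivity) (fun D => R D 1) hR1 ψ hψ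
      have e2 := growingS (l := 0) (k := 2) (by norm_num) hC₁ (a := C₁) (by positivity) (fun D => R D 2) hR2 ψ hψ
      refine Pool.Agent.N826.IT.Orb.almostAll_mono (Pool.Agent.N826.IT.Orb.almostAll_and e1 e2) ?_
      rintro v ⟨h1, h2⟩ D k t θ hk ht hc
      by_contra hbad
      have hw : ∀ {x : ℕ}, 2 ^ ((D + 2) ^ (3 * C₁ + 9 * C₂)) ≤ x → 2 ^ ((D + 2) ^ (3 * C₁)) ≤ x := fun h =>
        (Nat.pow_le_pow_right (by norm_num) (Nat.pow_le_pow_right (by omega) (by omega))).trans h
      rcases split_bad (P := fun t => t ∣ v ∧ ψ v ≤ t ∧ 2 ^ ((D + 2) ^ (3 * C₁ + 9 * C₂)) ≤ t) (R := R D) ht hc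
        fun h => hbad (hLarge D k t θ hk h) with ⟨s, t', h3, h4, h5⟩ | ⟨s, t', h3, h4, h5⟩
      · exact h1 D s t' (fun i => i.elim0) (fun i => ⟨(h3 i).1, (h3 i).2.1, hw (h3 i).2.2⟩) h4 h5
      · exact h2 D s t' (fun i => i.elim0) (fun i => ⟨(h3 i).1, (h3 i).2.1, hw (h3 i).2.2⟩) h4 h5

end Pool.Agent.Results.MP_f11a48_ag.AllFiniteFamilies
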