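import Pool.Agent.U757.HG.A5

/-!
# The smallest subtorsor containing the period matrix, for almost all tuples of hypergeometric motives of Calabi-Yau type
of any rank

Let `β_i = (β_{i,1}, …, β_{i,m_i})`, `1 ≤ i ≤ k`, be rational numbers which are not integers, and `θ = z d/dz`. The
hypergeometric operator `θ^(2 m_i) - z ∏_j (θ^2 - β_{i,j}^2)` has maximally unipotent monodromy at `z = 0`. For `m_i = 1`
it belongs to a family of elliptic curves; for `m_i = 2` and `β_i = (1/5, 2/5)` it is contiguous to the operator of the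
mirror quintic, and the fibre at a rational point `z` is the motive `h^3` of a Calabi-Yau threefold over `ℚ`. Let `Y_i(t)`
be the matrix of the derivatives `(θ^a f_b)(1 / t)` of the solutions given by the method of Frobenius, and `Ω_i` the period
matrix of the limit object at `z = 0`: the period matrix of the fibre `M_i` at `z = 1 / t_i` (rows: a basis of `M_B`, columns:
the rational basis `ω, θω, θ^2 ω, …` of `M_dR`) is `Z_i = (Y_i(t_i) Ω_i)^t`. The only thing which we use about `Ω_i` is that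
it respects the polarisations: `Ω_i^t J(β_i) Ω_i = (2πi)^(w_i) B_i` with the rational form `J(β_i)` and an alternating
nondegenerate form `B_i`; for a polarised motive of weight `w_i` the form `B_i` is rational.

Let `M_0` be any object with the direct summand `ℚ(-1)` and `C₀` its period matrix. For a number field `K` let `Ω_M` be the
smallest `K`-subtorsor which contains the period matrix of `M`.

**Theorem.** Let `D` be a natural number. For almost all tuples `t` of integers (all but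
`C N^(k-1) ∑_i (1 + N / (x_i + N)^c)` of the tuples in the box `∏_i (x_i, x_i + N]`; `c > 0` and `C` depend only on `D`, the
rank of `M_0` and the `β_i`) the following holds for all number fields `K ⊂ ℂ` of degree at most `D` at once (`B_i` over `K`).

1. For `M = M_0 ⊕ ⨁ M_i` the torsor `Ω_M` is the fibre product of `Ω_{M_0}` and the torsors of symplectic similitudes: the set
  of all `x ⊕ ⨁ X_i` with `x ∈ Ω_{M_0}` and `X_i J(β_i) X_i^t = z(x)^(w_i) B_i`, where `z(x)` is the coordinate of `ℚ(-1)`.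
  So if `Ω_{M_0} = Ω^And_{M_0}` then `Ω_M = Ω^dRB_M = Ω^And_M`: this part of the conjecture for a motive `M_0` implies it for
  `M_0 ⊕ ⨁ M_i`. (For `M_0 = ℚ(-1)` it is true, as `π` is transcendental.)
2. If all `w_i` are equal to `v > 0` then for `M = ⨁ M_i` the torsor `Ω_M` is the torsor of the symplectic similitudes
  `⨁ X_i` with one common multiplier. So `Ω_M = Ω^dRB_M = Ω^And_M`, and `Ω_M = Ω^mot_M` if the polarisations are algebraic.

Moreover there are functions `D(N) → ∞` and `δ(N) → 0` such that all this is true for all number fields of degree at most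
`D(N)`, for all but `δ(N) N^k` of the tuples `t` in `[2, N]^k`.

Proof. The starting file BigMonodromyTorsors (MP_caab05_ag, library `Pool.Agent.Y123.GN`) has the following theorem for
families of G-functions with `special(B_i) ≤ Gal(P_i)`, where `Gal(P_i)` is the group of the matrices which preserve the
relations over `ℂ(x)`: for almost all `t` all `K`-subtorsors which contain `C₀ ⊕ ⨁ Z_i` are stable under `∏ special(B_i)`. Here
(`Pool/Agent/U757/HG`) we verify this condition of big monodromy for the hypergeometric families of all even ranks, from the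
theorem of helper119 on the invariance of the relations on `(0, 1)` (`Pool.Agent.Y119.HY.hyp_invar`) and the separation of
logarithms. Then we compute the smallest subtorsor: there are symplectic bases over `K`, so the torsors of similitudes have
polynomial sections over `K`, and the image in `GL(M_0)` of a subtorsor of the fibre product which is stable under the
symplectic groups is closed and defined over `K`; as it contains `C₀` it contains `Ω_{M_0}`. In 2 the Tate object is removed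
by adding a coordinate, as the multiplier of a similitude is a `v`-th power over `ℂ`.
-/

set_option autoImplicit false

open PowerSeries Filter Pool.Agent.Y119.HZ

namespace Pool.Agent.Results.MP_f11a48_ag.HypergeometricSmallestSubtorsor

/-- the power series `k + ε` in the variable `ε` -/
noncomputable def shift (k : ℕ) : PowerSeries ℚ := C (k : ℚ) + X

/-- `a_k(ε) = ∏_{l < k} ∏_j ((l + ε)^2 - β_j^2) / (l + 1 + ε)^(2m)`. The series `∑_k a_k(ε) z^(k + ε)` solves the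
equation `(θ^n - z ∏_j (θ^2 - β_j^2)) f = ε^n z^ε`, hence its coefficients `f_j` at `ε^j` with `j < n = 2m` are
solutions of the homogeneous equation. -/
noncomputable def frob {m : ℕ} (β : Fin m → ℚ) (k : ℕ) : PowerSeries ℚ :=
  ∏ l ∈ Finset.range k, ((∏ j, (shift l ^ 2 - C (β j ^ 2))) * ((shift (l + 1))⁻¹) ^ (2 * m))

/-- The matrix with the entries `(θ^i f_j)(1 / t)`, where `f_j(z)` is the coefficient of `ε^j` in the series
`∑_k a_k(ε) z^(k + ε)`, `z^ε = ∑_l (log z)^l ε^l / l!`. -/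
noncomputable def Y {m : ℕ} (β : Fin m → ℚ) (t : ℕ) : Matrix (Fin (2 * m)) (Fin (2 * m)) ℂ :=
  Matrix.of fun i j => ∑ l ∈ Finset.range ((j : ℕ) + 1), ((Real.log (1 / t) ^ l / l.factorial : ℝ) : ℂ) *
    ∑' k : ℕ, ((coeff ((j : ℕ) - l) (shift k ^ (i : ℕ) * frob β k) : ℚ) : ℂ) * (1 / (t : ℂ)) ^ k

/-- the polynomial `∏_j (x^2 - β_j^2)` -/
noncomputable def poly {m : ℕ} (β : Fin m → ℚ) : Polynomial ℚ := ∏ j, (Polynomial.X ^ 2 - Polynomial.C (β j ^ 2))

/-- The matrix of the intersection form on the de Rham side: the entry `(i, j)` is `(-1)^i q_{i+j+1-n}` for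
`i + j + 1 ≥ n` and `0` otherwise, where `q_l` are the coefficients of `∏_j (x^2 - β_j^2)`. -/
noncomputable def J {m : ℕ} (β : Fin m → ℚ) : Matrix (Fin (2 * m)) (Fin (2 * m)) ℂ :=
  Matrix.of fun i j => if 2 * m ≤ (i : ℕ) + j + 1 then (((-1) ^ (i : ℕ) * (poly β).coeff (i + j + 1 - 2 * m) : ℚ) : ℂ) else 0

/-- `T` is (the set of complex points of) a `K`-subtorsor of `GL_B = Iso (M_dR, M_B)`: it is closed under `x y⁻¹ z`, and
it is defined in `GL_B` by polynomials with coefficients in `K`. -/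
def IsSubtorsor (K : Subfield ℂ) {B : Type} [Fintype B] [DecidableEq B] (T : Set (Matrix B B ℂ)) : Prop :=
  (∀ x ∈ T, ∀ y ∈ T, ∀ z ∈ T, x * y⁻¹ * z ∈ T) ∧ ∃ I : Set (MvPolynomial (B × B) K), ∀ x : Matrix B B ℂ, x ∈ T ↔
    IsUnit x ∧ ∀ p ∈ I, MvPolynomial.eval (fun b => x b.1 b.2) (MvPolynomial.map (algebraMap K ℂ) p) = 0

/-- the smallest `K`-subtorsor which contains the matrix `c`: the intersection of all of them -/
def Omega (K : Subfield ℂ) {B : Type} [Fintype B] [DecidableEq B] (c : Matrix B B ℂ) : Set (Matrix B B ℂ) :=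
  {x | ∀ T : Set (Matrix B B ℂ), IsSubtorsor K T → c ∈ T → x ∈ T}

section
variable {k r : ℕ} {m : Fin k → ℕ}

/-- the block matrix `x ⊕ X_1 ⊕ … ⊕ X_k` -/
noncomputable def total (x : Matrix (Fin r) (Fin r) ℂ) (X : ∀ i, Matrix (Fin (2 * m i)) (Fin (2 * m i)) ℂ) :
    Matrix (Fin r ⊕ Σ i, Fin (2 * m i)) (Fin r ⊕ Σ i, Fin (2 * m i)) ℂ :=
  Matrix.fromBlocks x 0 0 (Matrix.blockDiagonal' X)

/-- the period matrices `(Y_i(t_i) Ω_i)^t` of the fibres (rows: Betti, columns: de Rham) -/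
noncomputable def per (β : ∀ i, Fin (m i) → ℚ) (Ω : ∀ i, Matrix (Fin (2 * m i)) (Fin (2 * m i)) ℂ) (t : Fin k → ℕ) :
    ∀ i, Matrix (Fin (2 * m i)) (Fin (2 * m i)) ℂ := fun i => (Y (β i) (t i) * Ω i).transpose

/-- The matrices `Ω_i` respect the forms `J(β_i)` and the alternating and nondegenerate forms `B_i` up to the factors
`(2πi)^(w_i)`. -/
def Polarised (β : ∀ i, Fin (m i) → ℚ) (B Ω : ∀ i, Matrix (Fin (2 * m i)) (Fin (2 * m i)) ℂ) (w : Fin k → ℕ) : Prop :=
  ∀ i, IsUnit (B i) ∧ (B i).transpose = -B i ∧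
    (Ω i).transpose * J (β i) * Ω i = (2 * Real.pi * Complex.I) ^ w i • B i

/-- `C₀` is an invertible matrix `C ⊕ (2πi)`: the period matrix of an object with the direct summand `ℚ(-1)` -/
def HasTate (C₀ : Matrix (Fin (r + 1)) (Fin (r + 1)) ℂ) : Prop :=
  IsUnit C₀ ∧ C₀ (Fin.last r) (Fin.last r) = 2 * Real.pi * Complex.I ∧
    ∀ a, a ≠ Fin.last r → C₀ a (Fin.last r) = 0 ∧ C₀ (Fin.last r) a = 0

/-- the isomorphisms `x ⊕ X_1 ⊕ … ⊕ X_k` with `x` in `Ω₀` such that `X_i` respects the polarisations of weight `w_i`, where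
the last diagonal entry of `x` is the coordinate of `ℚ(-1)` -/
def product (Ω₀ : Set (Matrix (Fin (r + 1)) (Fin (r + 1)) ℂ)) (β : ∀ i, Fin (m i) → ℚ)
    (B : ∀ i, Matrix (Fin (2 * m i)) (Fin (2 * m i)) ℂ) (w : Fin k → ℕ) :
    Set (Matrix (Fin (r + 1) ⊕ Σ i, Fin (2 * m i)) (Fin (r + 1) ⊕ Σ i, Fin (2 * m i)) ℂ) :=
  {y | ∃ x ∈ Ω₀, ∃ X : ∀ i, Matrix (Fin (2 * m i)) (Fin (2 * m i)) ℂ, y = total x X ∧
    ∀ i, X i * J (β i) * (X i).transpose = x (Fin.last r) (Fin.last r) ^ w i • B i}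

/-- the isomorphisms `X_1 ⊕ … ⊕ X_k` of `⨁ M_i` which respect the polarisations up to one common factor -/
def similitudes (β : ∀ i, Fin (m i) → ℚ) (B : ∀ i, Matrix (Fin (2 * m i)) (Fin (2 * m i)) ℂ) :
    Set (Matrix (Σ i, Fin (2 * m i)) (Σ i, Fin (2 * m i)) ℂ) :=
  {y | ∃ μ : ℂ, μ ≠ 0 ∧ ∃ X : ∀ i, Matrix (Fin (2 * m i)) (Fin (2 * m i)) ℂ, y = Matrix.blockDiagonal' X ∧
    ∀ i, X i * J (β i) * (X i).transpose = μ • B i}

/-- The conclusion for the tuple `t` and all number fields of degree at most `D`. -/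
def Good (D : ℕ) (C₀ : Matrix (Fin (r + 1)) (Fin (r + 1)) ℂ) (β : ∀ i, Fin (m i) → ℚ)
    (B Ω : ∀ i, Matrix (Fin (2 * m i)) (Fin (2 * m i)) ℂ) (w t : Fin k → ℕ) : Prop :=
  ∀ K : Subfield ℂ, FiniteDimensional ℚ K → Module.finrank ℚ K ≤ D → (∀ i a b, B i a b ∈ K) →
    -- the smallest subtorsor for `M_0 ⊕ ⨁ M_i`
    Omega K (total C₀ (per β Ω t)) = product (Omega K C₀) β B w ∧
    -- the smallest subtorsor for `⨁ M_i`, equal weights
    (∀ v : ℕ, 0 < v → 0 < k → (∀ i, w i = v) → Omega K (Matrix.blockDiagonal' (per β Ω t)) = similitudes β B)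

end

theorem shift_eq (k : ℕ) : shift k = Pool.Agent.Y119.HY.kx k := rfl

theorem frob_eq {m : ℕ} (β : Fin m → ℚ) (k : ℕ) : frob β k = Pool.Agent.Y119.HY.aq (2 * m) (Pool.Agent.Y119.HY.QB β) k := by
  unfold frob Pool.Agent.Y119.HY.aq
  refine Finset.prod_congr rfl fun l _ => ?_
  congr 1
  unfold Pool.Agent.Y119.HY.QB
  rw [map_prod]
  refine Finset.prod_congr rfl fun j _ => ?_
  simp only [map_sub, map_pow, Polynomial.aeval_X, Polynomial.aeval_C]
  rfl

theorem J_eq {m : ℕ} (β : Fin m → ℚ) :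
    J β = Pool.Agent.Y119.HY.cm (Pool.Agent.Y119.HY.Jm (2 * m) (Pool.Agent.Y119.HY.QB β)) := by
  ext i j
  rw [Pool.Agent.Y119.HY.cm_apply]
  unfold J Pool.Agent.Y119.HY.Jm
  rw [Matrix.of_apply, Matrix.of_apply]
  split_ifs
  · rfl
  · simp

theorem Y_eq {m : ℕ} (β : Fin m → ℚ) (t : ℕ) : Y β t = Yt (2 * m) (Pool.Agent.Y119.HY.QB β) t := by
  ext i j
  unfold Y Yt
  rw [Matrix.of_apply, Matrix.mul_apply]
  have hE : ∀ c : Fin (2 * m), Pool.Agent.Y119.HY.E (Pool.Agent.Y119.HY.cm (Pool.Agent.Y119.HY.Am (2 * m)))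
      (-((Real.log t : ℝ) : ℂ)) c j = ∑ l ∈ Finset.range (2 * m),
        if (j : ℕ) = c + l then ((Real.log (1 / t) ^ l / l.factorial : ℝ) : ℂ) else 0 := by
    intro c
    unfold Pool.Agent.Y119.HY.E
    rw [Matrix.sum_apply]
    refine Finset.sum_congr rfl fun l _ => ?_
    rw [Matrix.smul_apply, ← Pool.Agent.Y119.HY.cm_pow, Pool.Agent.Y119.HY.cm_apply, Pool.Agent.Y119.HY.Am_pow, smul_eq_mul,
      one_div, Real.log_inv]
    split_ifs
    · push_cast
      ring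
    · simp
  simp only [hE, Finset.mul_sum]
  rw [Finset.sum_comm]
  have hsub : Finset.range ((j : ℕ) + 1) ⊆ Finset.range (2 * m) := by
    intro l hl
    rw [Finset.mem_range] at hl ⊢
    have := j.2
    omega
  refine Finset.sum_subset_zero_on_sdiff hsub (fun l hl => ?_) fun l hl => ?_
  · rw [Finset.mem_sdiff, Finset.mem_range, Finset.mem_range] at hl
    refine Finset.sum_eq_zero fun c _ => ?_
    rw [if_neg (by omega), mul_zero]
  · rw [Finset.mem_range] at hl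
    have hj := j.2
    rw [Finset.sum_eq_single (⟨(j : ℕ) - l, by omega⟩ : Fin (2 * m))]
    · rw [if_pos (by simp only; omega), mul_comm]
      congr 1
      unfold Pool.Agent.Y119.HY.Hf Pool.Agent.Y119.HY.ps
      rw [Matrix.of_apply]
      refine tsum_congr fun k => ?_
      show _ = ((Pool.Agent.Y119.HY.hq (2 * m) (Pool.Agent.Y119.HY.QB β) k i ((j : ℕ) - l) : ℚ) : ℂ) *
        (((1 / (t : ℝ) : ℝ)) : ℂ) ^ k
      rw [frob_eq, shift_eq]
      unfold Pool.Agent.Y119.HY.hq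
      push_cast
      rfl
    · intro c _ hc
      rw [if_neg, mul_zero]
      intro h
      apply hc
      apply Fin.ext
      simp only
      omega
    · intro h
      exact absurd (Finset.mem_univ _) h

section omega
variable {K : Subfield ℂ} {B : Type} [Fintype B] [DecidableEq B]

/-- the invertible matrices are a subtorsor -/
theorem gl_sub : IsSubtorsor K {x : Matrix B B ℂ | IsUnit x} := by
  refine ⟨fun x hx y hy z hz => (IsUnit.mul (IsUnit.mul hx ((Matrix.isUnit_nonsing_inv_iff).2 hy)) hz), ∅, fun x => ?_⟩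
  simp

/-- `Omega K c` is a `K`-subtorsor -/
theorem omega_sub {c : Matrix B B ℂ} (hc : IsUnit c) : IsSubtorsor K (Omega K c) := by
  refine ⟨fun x hx y hy z hz T hT hcT => hT.1 x (hx T hT hcT) y (hy T hT hcT) z (hz T hT hcT), {p | ∀ x ∈ Omega K c,
    MvPolynomial.eval (fun b => x b.1 b.2) (MvPolynomial.map (algebraMap K ℂ) p) = 0}, fun x => ⟨fun hx => ⟨?_, fun p hp => ?_⟩, ?_⟩⟩
  · exact hx _ gl_sub hc
  · exact hp x hx
  · rintro ⟨hu, h⟩ T hT hcT
    obtain ⟨I, hI⟩ := hT.2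
    rw [hI]
    refine ⟨hu, fun p hp => h p fun y hy => ?_⟩
    have hyT : y ∈ T := hy T hT hcT
    rw [hI] at hyT
    exact hyT.2 p hp

theorem omega_eq {c : Matrix B B ℂ} {T : Set (Matrix B B ℂ)} (hT : IsSubtorsor K T) (hc : c ∈ T)
    (h : ∀ T' : Set (Matrix B B ℂ), IsSubtorsor K T' → c ∈ T' → T ⊆ T') : Omega K c = T :=
  Set.Subset.antisymm (fun _ hx => hx T hT hc) fun _ hx T' hT' hcT' => h T' hT' hcT' hx

end omega

section
variable {k r : ℕ} {m : Fin k → ℕ}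

theorem good_of {D : ℕ} {C₀ : Matrix (Fin (r + 1)) (Fin (r + 1)) ℂ} (hC₀ : HasTate C₀) {β : ∀ i, Fin (m i) → ℚ}
    (hm : ∀ i, 1 ≤ m i) (hQ : ∀ i, Pool.Agent.Y119.HY.QD (2 * m i) (Pool.Agent.Y119.HY.QB (β i)))
    {B Ω : ∀ i, Matrix (Fin (2 * m i)) (Fin (2 * m i)) ℂ} {w : Fin k → ℕ} (hpol : Polarised β B Ω w) {t : Fin k → ℕ}
    (ht : ∀ i, 2 ≤ t i) (h1 : Pool.Agent.U757.HG.St D C₀ (per β Ω t) B)
    (h2 : Pool.Agent.U757.HG.St D (Pool.Agent.Y123.GN.tpi • (1 : Matrix (Fin 1) (Fin 1) ℂ)) (per β Ω t) B) :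
    Good D C₀ β B Ω w t := by
  intro K hKf hKD hBK
  have hB : ∀ i, Pool.Agent.Y123.GN.Spf (B i) := fun i => ⟨(hpol i).1, (hpol i).2.1⟩
  have hJ : ∀ i, Pool.Agent.Y123.GN.Spf (J (β i)) := by
    intro i
    refine ⟨?_, ?_⟩
    · rw [J_eq, Matrix.isUnit_iff_isUnit_det, isUnit_iff_ne_zero]
      exact Pool.Agent.Y119.HY.Jc_det (hQ i)
    · rw [J_eq]
      exact Pool.Agent.Y119.HY.Jc_skew (hQ i)
  have hJK : ∀ i a b, J (β i) a b ∈ K := by
    intro i a b
    unfold J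
    rw [Matrix.of_apply]
    split_ifs
    · exact SubfieldClass.ratCast_mem K _
    · exact K.zero_mem
  have hZ : ∀ i, per β Ω t i * J (β i) * (per β Ω t i).transpose = (2 * Real.pi * Complex.I) ^ w i • B i := by
    intro i
    have h3 : (Y (β i) (t i)).transpose * J (β i) * Y (β i) (t i) = J (β i) := by
      rw [J_eq, Y_eq]
      exact Yt_form (hQ i) (ht i)
    show (Y (β i) (t i) * Ω i).transpose * J (β i) * ((Y (β i) (t i) * Ω i).transpose).transpose = _
    rw [Matrix.transpose_transpose, ← (hpol i).2.2]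
    conv_rhs => rw [← h3]
    rw [Matrix.transpose_mul]
    simp only [Matrix.mul_assoc]
  refine ⟨?_, fun v hv hk hw => ?_⟩
  · have hsub := omega_sub (K := K) hC₀.1
    have hsub' := Pool.Agent.Y123.ST.subT_iff.1 hsub
    have hspl : ∀ x ∈ Omega K C₀, Pool.Agent.U757.HG.Spl (Fin.last r) x := fun x hx =>
      (hx _ (Pool.Agent.Y123.ST.subT_iff.2 (Pool.Agent.U757.HG.spl_sub (Fin.last r))) ⟨hC₀.1, hC₀.2.2⟩).2
    have hZ' : ∀ i, per β Ω t i * J (β i) * (per β Ω t i).transpose = C₀ (Fin.last r) (Fin.last r) ^ w i • B i := by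
      intro i
      rw [hC₀.2.1]
      exact hZ i
    refine omega_eq (Pool.Agent.Y123.ST.subT_iff.2
      (Pool.Agent.U757.HG.PS_sub hsub' hspl (fun i => (hB i).1) hBK hJK w)) ?_ ?_
    · exact ⟨C₀, fun T _ h => h, per β Ω t, rfl, hZ'⟩
    · intro T hT hcT
      exact Pool.Agent.U757.HG.PS_le h1 hB hJ hKf hKD hBK hJK hsub' (fun T _ h => h)
        (fun T hT' hcT' x hx => hx T (Pool.Agent.Y123.ST.subT_iff.2 hT') hcT') hspl hZ'
        (Pool.Agent.Y123.ST.subT_iff.1 hT) hcT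
  · have hm0 : 0 < 2 * m ⟨0, hk⟩ := by
      have := hm ⟨0, hk⟩
      omega
    have hZ' : ∀ i, per β Ω t i * J (β i) * (per β Ω t i).transpose = Pool.Agent.Y123.GN.tpi ^ v • B i := by
      intro i
      rw [hZ i, hw i]
      rfl
    refine omega_eq (Pool.Agent.Y123.ST.subT_iff.2
      (Pool.Agent.U757.HG.SM_sub ⟨0, hk⟩ hm0 (fun i => (hB i).1) (fun i => (hJ i).1) hBK hJK)) ?_ ?_
    · exact ⟨Pool.Agent.Y123.GN.tpi ^ v, pow_ne_zero _ Pool.Agent.Y123.GN.tpi_ne, per β Ω t, rfl, hZ'⟩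
    · intro T hT hcT
      exact Pool.Agent.U757.HG.SM_le h2 hB hKf hKD hBK hJK hv hZ' (Pool.Agent.Y123.ST.subT_iff.1 hT) hcT

end

/-- **The theorem.** -/
theorem result (k : ℕ) (m : Fin k → ℕ) (hm : ∀ i, 1 ≤ m i) (β : ∀ i, Fin (m i) → ℚ)
    (hβ : ∀ i j, ∀ a : ℤ, β i j ≠ a) (r : ℕ) :
    -- number fields of degree at most `D`
    (∀ D : ℕ, ∃ c C : ℝ, 0 < c ∧ 0 ≤ C ∧ ∀ (B Ω : ∀ i, Matrix (Fin (2 * m i)) (Fin (2 * m i)) ℂ) (w : Fin k → ℕ),
      Polarised β B Ω w → ∀ C₀ : Matrix (Fin (r + 1)) (Fin (r + 1)) ℂ, HasTate C₀ → ∀ (x : Fin k → ℕ) (N : ℕ),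
      (∀ i, 1 ≤ x i) → 1 ≤ N →
      (({t : Fin k → ℕ | (∀ i, x i < t i ∧ t i ≤ x i + N) ∧ ¬ Good D C₀ β B Ω w t}.ncard : ℕ) : ℝ) ≤
        C * (N : ℝ) ^ (k - 1) * ∑ i, (1 + N / ((x i : ℝ) + N) ^ c)) ∧
    -- number fields of degree at most `D N`, which tends to infinity
    (∃ (D : ℕ → ℕ) (δ : ℕ → ℝ), Tendsto D atTop atTop ∧ Tendsto δ atTop (nhds 0) ∧
      ∀ (B Ω : ∀ i, Matrix (Fin (2 * m i)) (Fin (2 * m i)) ℂ) (w : Fin k → ℕ), Polarised β B Ω w →
      ∀ C₀ : Matrix (Fin (r + 1)) (Fin (r + 1)) ℂ, HasTate C₀ → ∀ N : ℕ, 1 ≤ N →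
      (({t : Fin k → ℕ | (∀ i, 2 ≤ t i ∧ t i ≤ N) ∧ ¬ Good (D N) C₀ β B Ω w t}.ncard : ℕ) : ℝ) ≤ δ N * (N : ℝ) ^ k) := by
  classical
  have hβ' : ∀ i, ∀ j, ∀ l : ℕ, (l : ℚ) + β i j ≠ 0 ∧ (l : ℚ) + -β i j ≠ 0 := by
    intro i j l
    constructor
    · intro h
      apply hβ i j (-(l : ℤ))
      push_cast
      linear_combination h
    · intro h
      apply hβ i j (l : ℤ)
      push_cast
      linear_combination -h
  have hQ := fun i => QD_QB (hm i) (hβ' i)
  have hH := fun i => fun a b => Pool.Agent.Y119.HY.sdc_hps (hβ' i) (hQ i) a b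
  have hmain : ∀ D : ℕ, ∃ c C : ℝ, 0 < c ∧ 0 ≤ C ∧ ∀ (B Ω : ∀ i, Matrix (Fin (2 * m i)) (Fin (2 * m i)) ℂ)
      (w : Fin k → ℕ), Polarised β B Ω w → ∀ C₀ : Matrix (Fin (r + 1)) (Fin (r + 1)) ℂ, HasTate C₀ →
      ∀ (x : Fin k → ℕ) (N : ℕ), (∀ i, 1 ≤ x i) → 1 ≤ N →
      (({t : Fin k → ℕ | (∀ i, x i < t i ∧ t i ≤ x i + N) ∧ ¬ Good D C₀ β B Ω w t}.ncard : ℕ) : ℝ) ≤
        C * (N : ℝ) ^ (k - 1) * ∑ i, (1 + N / ((x i : ℝ) + N) ^ c) := by
    intro D
    obtain ⟨c, C, hc, hC, h1⟩ := Pool.Agent.U757.HG.count k D (r + 1) (fun i => 2 * m i)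
      (fun i => Pool.Agent.Y119.HY.QB (β i)) hQ hH
    obtain ⟨c', C', hc', hC', h2⟩ := Pool.Agent.U757.HG.count k D 1 (fun i => 2 * m i)
      (fun i => Pool.Agent.Y119.HY.QB (β i)) hQ hH
    refine ⟨min c c', C + C', lt_min hc hc', add_nonneg hC hC', ?_⟩
    intro B Ω w hpol C₀ hC₀ x N hx hN
    have hB : ∀ i, Pool.Agent.Y123.GN.Spf (B i) := fun i => ⟨(hpol i).1, (hpol i).2.1⟩
    have hlam : ∀ i, ((2 * Real.pi * Complex.I : ℂ)) ^ w i ≠ 0 := fun i => pow_ne_zero _ Pool.Agent.Y123.GN.tpi_ne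
    have hΩ : ∀ i, (Ω i).transpose * Pool.Agent.Y119.HY.cm (Pool.Agent.Y119.HY.Jm (2 * m i)
        (Pool.Agent.Y119.HY.QB (β i))) * Ω i = ((2 * Real.pi * Complex.I : ℂ)) ^ w i • B i := by
      intro i
      rw [← J_eq]
      exact (hpol i).2.2
    set E := {t : Fin k → ℕ | (∀ i, x i < t i ∧ t i ≤ x i + N) ∧ ¬ Good D C₀ β B Ω w t} with hE
    have hfin : E.Finite := by
      refine (Set.finite_Iic (fun i : Fin k => x i + N)).subset ?_
      intro t ht i
      exact (ht.1 i).2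
    rw [Set.ncard_eq_toFinset_card E hfin]
    set F := hfin.toFinset with hF
    set F1 := F.filter (fun t => ¬ Pool.Agent.U757.HG.St D C₀ (per β Ω t) B) with hF1
    set F2 := F.filter (fun t => ¬ Pool.Agent.U757.HG.St D
      (Pool.Agent.Y123.GN.tpi • (1 : Matrix (Fin 1) (Fin 1) ℂ)) (per β Ω t) B) with hF2
    have hsub : F ⊆ F1 ∪ F2 := by
      intro t ht
      have ht' : t ∈ E := hfin.mem_toFinset.1 ht
      rw [Finset.mem_union, hF1, hF2, Finset.mem_filter, Finset.mem_filter]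
      by_contra hcon
      push Not at hcon
      refine ht'.2 (good_of hC₀ hm hQ hpol (fun i => ?_) (hcon.1 ht) (hcon.2 ht))
      have := (ht'.1 i).1
      have := hx i
      omega
    have hper : ∀ t : Fin k → ℕ, per β Ω t = fun i => (Yt (2 * m i) (Pool.Agent.Y119.HY.QB (β i)) (t i) * Ω i).transpose := by
      intro t
      funext i
      unfold per
      rw [Y_eq]
    have b1 : (F1.card : ℝ) ≤ C * (N : ℝ) ^ (k - 1) * ∑ i, (1 + N / ((x i : ℝ) + N) ^ c) := by
      refine h1 B Ω _ hB hlam hΩ C₀ x N hN F1 fun t ht => ?_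
      rw [hF1, Finset.mem_filter] at ht
      rw [← hper]
      exact ⟨(hfin.mem_toFinset.1 ht.1).1, ht.2⟩
    have b2 : (F2.card : ℝ) ≤ C' * (N : ℝ) ^ (k - 1) * ∑ i, (1 + N / ((x i : ℝ) + N) ^ c') := by
      refine h2 B Ω _ hB hlam hΩ (Pool.Agent.Y123.GN.tpi • (1 : Matrix (Fin 1) (Fin 1) ℂ)) x N hN F2
        fun t ht => ?_
      rw [hF2, Finset.mem_filter] at ht
      rw [← hper]
      exact ⟨(hfin.mem_toFinset.1 ht.1).1, ht.2⟩
    have b3 : (F.card : ℝ) ≤ (F1.card : ℝ) + F2.card := by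
      exact_mod_cast (Finset.card_le_card hsub).trans (Finset.card_union_le _ _)
    exact b3.trans ((add_le_add b1 b2).trans (Pool.Agent.U757.HG.bound_add hC hC' x hN))
  refine ⟨hmain, ?_⟩
  choose c C hc hC hcount using hmain
  obtain ⟨D, hD, hδ⟩ := Pool.Agent.Y123.GN.diag_seq
    (fun D N => C D * k * (1 / (N : ℝ) + 1 / ((1 : ℝ) + N) ^ (c D))) (by
      intro D
      have h1 : Tendsto (fun N : ℕ => (1 : ℝ) / (N : ℝ)) atTop (nhds 0) := tendsto_one_div_atTop_nhds_zero_nat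
      have h2 : Tendsto (fun N : ℕ => (1 : ℝ) / ((1 : ℝ) + N) ^ (c D)) atTop (nhds 0) := by
        have h3 := (tendsto_rpow_atTop (hc D)).comp
          (tendsto_atTop_add_const_left atTop (1 : ℝ) (tendsto_natCast_atTop_atTop (R := ℝ)))
        have h4 := h3.inv_tendsto_atTop
        refine h4.congr fun N => ?_
        rw [one_div]
        rfl
      have h5 := (h1.add h2).const_mul (C D * k)
      rw [add_zero, mul_zero] at h5
      exact h5)
  refine ⟨D, _, hD, hδ, ?_⟩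
  intro B Ω w hpol C₀ hC₀ N hN
  have h1 := hcount (D N) B Ω w hpol C₀ hC₀ (fun _ => 1) N (fun _ => le_refl 1) hN
  have hfin : {t : Fin k → ℕ | (∀ i, 1 < t i ∧ t i ≤ 1 + N) ∧ ¬ Good (D N) C₀ β B Ω w t}.Finite := by
    refine (Set.finite_Iic (fun i : Fin k => 1 + N)).subset ?_
    intro t ht i
    exact (ht.1 i).2
  have h2 : {t : Fin k → ℕ | (∀ i, 2 ≤ t i ∧ t i ≤ N) ∧ ¬ Good (D N) C₀ β B Ω w t} ⊆
      {t : Fin k → ℕ | (∀ i, 1 < t i ∧ t i ≤ 1 + N) ∧ ¬ Good (D N) C₀ β B Ω w t} := by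
    rintro t ⟨ht1, ht2⟩
    refine ⟨fun i => ?_, ht2⟩
    have := ht1 i
    omega
  have h3 : (({t : Fin k → ℕ | (∀ i, 2 ≤ t i ∧ t i ≤ N) ∧ ¬ Good (D N) C₀ β B Ω w t}.ncard : ℕ) : ℝ) ≤
      (({t : Fin k → ℕ | (∀ i, 1 < t i ∧ t i ≤ 1 + N) ∧ ¬ Good (D N) C₀ β B Ω w t}.ncard : ℕ) : ℝ) := by
    exact_mod_cast Set.ncard_le_ncard h2 hfin
  refine h3.trans (h1.trans (le_of_eq ?_))
  have hN0 : (N : ℝ) ≠ 0 := by
    have : N ≠ 0 := by omega
    exact_mod_cast this
  rw [Finset.sum_const, Finset.card_univ, Fintype.card_fin, nsmul_eq_mul, Nat.cast_one]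
  rcases Nat.eq_zero_or_pos k with hk | hk
  · subst hk
    simp
  · obtain ⟨q, rfl⟩ : ∃ q, k = q + 1 := ⟨k - 1, by omega⟩
    have h4 : (N : ℝ) ^ (q + 1) = (N : ℝ) ^ q * N := pow_succ _ _
    rw [Nat.add_sub_cancel, h4]
    have h5 : (1 : ℝ) + N / ((1 : ℝ) + N) ^ (c (D N)) = N * (1 / (N : ℝ) + 1 / ((1 : ℝ) + N) ^ (c (D N))) := by
      rw [mul_add, mul_one_div_cancel hN0, mul_one_div]
    rw [h5]
    ring

end Pool.Agent.Results.MP_f11a48_ag.HypergeometricSmallestSubtorsor
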