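import Pool.Agent.U128.ZO.Drb

/-!
# A zero-one law for the de Rham-Betti classes

Let `X` be a smooth projective variety over the field of algebraic numbers (with nonzero cohomology).
The period conjecture (`Ω^dRB = Ω^And`) predicts that all de Rham-Betti classes on the powers of `X`
are motivated; in particular they should be Hodge classes. It is not even known that a de Rham-Betti
class is of type `(j, j)`.

**Theorem.** One of the following is true.

* All de Rham-Betti classes on all powers of `X` are Hodge classes.
* The Hodge classes have density zero among the de Rham-Betti classes: the quotient of the dimensions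
  of the spaces of the de Rham-Betti classes and of the de Rham-Betti classes which are Hodge classes
  on `X ^ n` tends to infinity. Moreover the de Rham-Betti classes on the powers of `X` are not
  generated by finitely many ones under the correspondences given by the de Rham-Betti classes which
  are Hodge classes.

(The motivated and the algebraic classes are de Rham-Betti classes and Hodge classes; so their density
is zero in the second case, see `Pool.Agent.U128.ZO.DRB.main`.)

So a single de Rham-Betti class on one power of `X` which is not a Hodge class forces almost all de
Rham-Betti classes on the high powers not to be Hodge classes; and all de Rham-Betti classes on all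
varieties are Hodge classes if and only if there is no variety on whose powers the Hodge classes have
density zero among the de Rham-Betti classes.

The tower law of the starting file `MotivatedTower` (the index of the motivated classes in the de
Rham-Betti classes is an element of `{1, 2, …, ∞}`, and there are finitely many generators if it is
finite) is applied to the pair (de Rham-Betti and Hodge) ⊆ (de Rham-Betti), the smaller system being
nondegenerate by the Hodge-Riemann relations. If there are finitely many generators, the operator
which acts on `H^(p,q)` as `2 ^ (p - q)` satisfies one polynomial relation on all de Rham-Betti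
classes; the external powers of a class which is not a Hodge class violate it.

Here `T` is a Hodge theory, `D` the de Rham structure on its cohomology, graded by the degree; `pw X n`
is the product of `n + 1` copies of `X`, and `HasIndex t s N` says that the quotients `t n / s n`
converge to `N ∈ ℕ ∪ {∞}`.
-/

set_option autoImplicit false

open CategoryTheory AlgebraicGeometry

universe u

namespace Pool.Agent.Results.MP_f11a48_ag.ZeroOneLaw

open Pool.Agent.H914 Pool.Agent.H914.VarClass Pool.Agent.H914.VarClass.Obj
  Pool.Agent.H914.WeilCohomology
open Pool.Agent.Y121.AHS Pool.Agent.R920.DB Pool.Agent.Y133.Per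
open Pool.Agent.Y133.Half (pw HasIndex GeneratedOver dimBy)
open Pool.Agent.U128.ZO.DRB

/-- **The zero-one law for the de Rham-Betti classes.** -/
theorem result {k : Type u} [Field k] {𝒱 : VarClass k} {ops : CycleOps 𝒱} (T : HodgeTheory ops)
    {F : Subfield ℂ} (D : DeRham T.W F) (hD : IsGraded D) :
    (∀ X : 𝒱.Obj, Nontrivial (T.W.H X) →
      (DRBAreHodge T D X ∧
        HasIndex (fun n => dimBy T.W (IsDRB D) (pw X n))
          (fun n => dimBy T.W (IsHodgeDRB T D) (pw X n)) 1) ∨
      (¬ DRBAreHodge T D X ∧
        HasIndex (fun n => dimBy T.W (IsDRB D) (pw X n))
          (fun n => dimBy T.W (IsHodgeDRB T D) (pw X n)) ⊤ ∧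
        ∀ N, ¬ GeneratedOver T.W (IsHodgeDRB T D) (IsDRB D) X N)) ∧
    ((∀ (X : 𝒱.Obj) (j : ℕ) (c : T.W.H X), IsDRB D X j c → IsHodge T X j c) ↔
      ∀ X : 𝒱.Obj, Nontrivial (T.W.H X) →
        ¬ HasIndex (fun n => dimBy T.W (IsDRB D) (pw X n))
          (fun n => dimBy T.W (IsHodgeDRB T D) (pw X n)) ⊤) :=
  ⟨fun _ _ => (main T D hD).imp id fun h => ⟨h.1, h.2.1, h.2.2.2.2⟩, global T D hD⟩

end Pool.Agent.Results.MP_f11a48_ag.ZeroOneLaw
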